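import Mathlib

open MeasureTheory

namespace Pool.Agent.Lib.MP_fa837f_gt

/-- The closed unit ball `B_p^n` of `ℓ_p^n`. -/
def lpBall (p : ℝ) (n : ℕ) : Set (EuclideanSpace ℝ (Fin n)) :=
  {x | ∑ i, |x i| ^ p ≤ 1}

/-- The diagonal map `D_t = diag(e^{t_1}, …, e^{t_n})`. -/
noncomputable def diagMap {n : ℕ} (t : Fin n → ℝ) (x : EuclideanSpace ℝ (Fin n)) :
    EuclideanSpace ℝ (Fin n) :=
  WithLp.toLp 2 fun i => Real.exp (t i) * x i

/-- Lebesgue measure on a finite-dimensional Euclidean space `E`: the translation invariant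
measure for which the unit cube spanned by an orthonormal basis of `E` has measure one. -/
noncomputable def lebesgue (E : Type) [NormedAddCommGroup E] [InnerProductSpace ℝ E]
    [FiniteDimensional ℝ E] [MeasurableSpace E] [BorelSpace E] : Measure E :=
  (stdOrthonormalBasis ℝ E).toBasis.addHaar

/-- Lebesgue measure on a linear subspace `H` of a Euclidean space `E`, for the Euclidean structure
inherited from `E`, as a measure on `E` carried by `H`. -/
noncomputable def lebesgueOn {E : Type} [NormedAddCommGroup E] [InnerProductSpace ℝ E]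
    [FiniteDimensional ℝ E] [MeasurableSpace E] [BorelSpace E] (H : Submodule ℝ E) : Measure E :=
  (lebesgue H).map Subtype.val

/-- `F_{p,H}(t) = vol_k(D_t B_p^n ∩ H)`. -/
noncomputable def sectionVol {n : ℕ} (p : ℝ) (H : Submodule ℝ (EuclideanSpace ℝ (Fin n)))
    (t : Fin n → ℝ) : ℝ :=
  (lebesgueOn H (diagMap t '' lpBall p n)).toReal

end Pool.Agent.Lib.MP_fa837f_gt
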