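import Pool.Agent.Lib.MP_fa837f_gt.LogF
import Pool.Agent.Lib.MP_fa837f_gt.Defs

open Matrix MeasureTheory Filter Topology Set

namespace Pool.Agent.Lib.MP_fa837f_gt

variable {k : ℕ} {ι : Type*} [Fintype ι]

/-- The linear map whose `ℓ_p` norm we integrate. -/
noncomputable def LL (a : ι → Fin k → ℝ) (w : ι → ℝ) : (Fin k → ℝ) →ₗ[ℝ] (ι → ℝ) where
  toFun y i := w i * (a i ⬝ᵥ y)
  map_add' y z := by ext i; simp only [Pi.add_apply, dotProduct_add]; ring
  map_smul' r y := by
    ext i; simp only [Pi.smul_apply, dotProduct_smul, smul_eq_mul, RingHom.id_apply]; ring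

theorem abs_rpow_eq (u p : ℝ) : |u| ^ p = (u ^ 2) ^ (p / 2) := by
  rw [← sq_abs, ← Real.rpow_natCast |u| 2, ← Real.rpow_mul (abs_nonneg u)]
  congr 1
  push_cast
  ring

section vol

variable {a : ι → Fin k → ℝ} {p : ℝ} (hp : 1 ≤ p) (hspan : ∀ y, (∀ i, a i ⬝ᵥ y = 0) → y = 0)
  {c : ι → ℝ} (hc : ∀ i, 0 < c i)

/-- The `ℓ_p` type norm. -/
noncomputable def gg (a : ι → Fin k → ℝ) (p : ℝ) (c : ι → ℝ) (y : Fin k → ℝ) : ℝ :=
  (∑ i, c i * |a i ⬝ᵥ y| ^ p) ^ (1 / p)

include hp hc in
theorem gg_eq_norm (y : Fin k → ℝ) :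
    gg a p c y = ‖WithLp.toLp (.ofReal p) (LL a (fun i => c i ^ (1 / p)) y)‖ := by
  have h₁ : 0 < p := by linarith
  have this : (ENNReal.ofReal p).toReal = p := ENNReal.toReal_ofReal h₁.le
  rw [PiLp.norm_eq_sum (this.symm ▸ h₁), this]
  unfold gg
  congr 1
  apply Finset.sum_congr rfl
  intro i _
  simp only [LL, LinearMap.coe_mk, AddHom.coe_mk, Real.norm_eq_abs]
  rw [abs_mul, Real.mul_rpow (abs_nonneg _) (abs_nonneg _),
    abs_of_nonneg (Real.rpow_nonneg (hc i).le _), ← Real.rpow_mul (hc i).le,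
    one_div_mul_cancel h₁.ne', Real.rpow_one]

include hp hc in
theorem gg_rpow (y : Fin k → ℝ) : gg a p c y ^ p = ∑ i, c i * ((a i ⬝ᵥ y) ^ 2) ^ (p / 2) := by
  have h₁ : 0 < p := by linarith
  unfold gg
  rw [← Real.rpow_mul, one_div_mul_cancel h₁.ne', Real.rpow_one]
  · exact Finset.sum_congr rfl fun i _ => by rw [abs_rpow_eq]
  · exact Finset.sum_nonneg fun i _ => mul_nonneg (hc i).le (Real.rpow_nonneg (abs_nonneg _) _)

include hc in
theorem gg_nonneg (y : Fin k → ℝ) : 0 ≤ gg a p c y :=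
  Real.rpow_nonneg (Finset.sum_nonneg fun i _ => mul_nonneg (hc i).le
    (Real.rpow_nonneg (abs_nonneg _) _)) _

include hp hc in
theorem gg_facts (hspan : ∀ y, (∀ i, a i ⬝ᵥ y = 0) → y = 0) :
    gg a p c 0 = 0 ∧ (∀ x, gg a p c (-x) = gg a p c x) ∧
    (∀ x y, gg a p c (x + y) ≤ gg a p c x + gg a p c y) ∧ (∀ {x}, gg a p c x = 0 → x = 0) ∧
    (∀ r x, gg a p c (r • x) ≤ |r| * gg a p c x) := by
  have h₁ : 0 < p := by linarith
  have : Fact (1 ≤ ENNReal.ofReal p) := fact_iff.mpr (ENNReal.ofReal_one ▸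
    (ENNReal.ofReal_le_ofReal hp))
  refine ⟨?_, ?_, ?_, ?_, ?_⟩
  · rw [gg_eq_norm hp hc, map_zero, WithLp.toLp_zero, norm_zero]
  · intro x
    rw [gg_eq_norm hp hc, gg_eq_norm hp hc, map_neg, WithLp.toLp_neg, norm_neg]
  · intro x y
    rw [gg_eq_norm hp hc, gg_eq_norm hp hc, gg_eq_norm hp hc, map_add, WithLp.toLp_add]
    exact norm_add_le _ _
  · intro x hx
    rw [gg_eq_norm hp hc, norm_eq_zero, WithLp.toLp_eq_zero] at hx
    apply hspan
    intro i
    have h2 := congrFun hx i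
    simp only [LL, LinearMap.coe_mk, AddHom.coe_mk, Pi.zero_apply, mul_eq_zero] at h2
    rcases h2 with h2 | h2
    · exact absurd h2 (Real.rpow_pos_of_pos (hc i) _).ne'
    · exact h2
  · intro r x
    rw [gg_eq_norm hp hc, gg_eq_norm hp hc, map_smul, WithLp.toLp_smul, norm_smul, Real.norm_eq_abs]

include hp hspan hc in
theorem vol_gg_lt : volume {y : Fin k → ℝ | gg a p c y < 1} =
    ENNReal.ofReal (GG a (p / 2) c / Real.Gamma (k / p + 1)) := by
  have h₁ : 0 < p := by linarith
  obtain ⟨h1, h2, h3, h4, h5⟩ := gg_facts hp hc hspan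
  have h := measure_lt_one_eq_integral_div_gamma (volume : Measure (Fin k → ℝ)) h1 h2 h3 h4 h5 h₁
  rw [h, Module.finrank_fin_fun]
  unfold GG
  simp only [gg_rpow hp hc]

include hp hspan hc in
theorem vol_gg_le (hk : 0 < k) : volume {y : Fin k → ℝ | gg a p c y ≤ 1} =
    ENNReal.ofReal (GG a (p / 2) c / Real.Gamma (k / p + 1)) := by
  have : Nonempty (Fin k) := ⟨⟨0, hk⟩⟩
  obtain ⟨h1, h2, h3, h4, h5⟩ := gg_facts hp hc hspan
  rw [measure_le_eq_lt (volume : Measure (Fin k → ℝ)) h1 h2 h3 h4 h5, vol_gg_lt hp hspan hc]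

include hp hspan in
theorem intg_of_span : Intg a (p / 2) := by
  intro c hc
  have h₁ : 0 < p := by linarith
  by_contra hcon
  have h := vol_gg_lt hp hspan hc
  have hz : GG a (p / 2) c = 0 := integral_undef hcon
  rw [hz, zero_div, ENNReal.ofReal_zero] at h
  have hcont : Continuous (gg a p c) := by
    unfold gg
    have hd : ∀ i, Continuous fun y : Fin k → ℝ => a i ⬝ᵥ y := fun i => continuous_dot (a i)
    apply Continuous.rpow_const
    · apply continuous_finsetSum
      intro i _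
      apply Continuous.mul continuous_const
      exact ((hd i).abs).rpow_const fun _ => Or.inr h₁.le
    · intro _
      right
      positivity
  have hopen : IsOpen {y : Fin k → ℝ | gg a p c y < 1} := isOpen_lt hcont continuous_const
  have hne : {y : Fin k → ℝ | gg a p c y < 1}.Nonempty := by
    refine ⟨0, ?_⟩
    have := (gg_facts hp hc hspan).1
    simp only [Set.mem_ofPred_eq, this]
    norm_num
  exact (hopen.measure_pos volume hne).ne' h

end vol

section sub

variable {n : ℕ} (H : Submodule ℝ (EuclideanSpace ℝ (Fin n)))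

/-- The coordinates of the points of `H` in an orthonormal basis of `H`. -/
noncomputable def coef (i : Fin n) (j : Fin (Module.finrank ℝ H)) : ℝ :=
  ((stdOrthonormalBasis ℝ H j : H) : EuclideanSpace ℝ (Fin n)) i

theorem coef_dot (x : H) (i : Fin n) :
    coef H i ⬝ᵥ ((stdOrthonormalBasis ℝ H).repr x).ofLp = (x : EuclideanSpace ℝ (Fin n)) i := by
  conv_rhs => rw [← (stdOrthonormalBasis ℝ H).sum_repr x]
  simp only [dotProduct, coef, Submodule.coe_sum, Submodule.coe_smul, WithLp.ofLp_sum,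
    WithLp.ofLp_smul, Finset.sum_apply, Pi.smul_apply, smul_eq_mul]
  exact Finset.sum_congr rfl fun j _ => mul_comm _ _

theorem coef_span (y : Fin (Module.finrank ℝ H) → ℝ) (hy : ∀ i, coef H i ⬝ᵥ y = 0) : y = 0 := by
  set x : H := (stdOrthonormalBasis ℝ H).repr.symm (WithLp.toLp 2 y) with hx
  have h1 : ((stdOrthonormalBasis ℝ H).repr x).ofLp = y := by
    rw [hx, LinearIsometryEquiv.apply_symm_apply]
  have h2 : x = 0 := by
    ext i
    rw [← coef_dot H x i, h1, hy i]
    simp
  rw [← h1, h2, map_zero]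
  rfl

theorem mem_diag_iff (p : ℝ) (t : Fin n → ℝ) (x : EuclideanSpace ℝ (Fin n)) :
    x ∈ diagMap t '' lpBall p n ↔ ∑ i, Real.exp (-(p * t i)) * |x i| ^ p ≤ 1 := by
  have key : ∀ z : EuclideanSpace ℝ (Fin n), ∀ i, Real.exp (-(p * t i)) * |diagMap t z i| ^ p =
      |z i| ^ p := by
    intro z i
    simp only [diagMap]
    rw [abs_mul, Real.mul_rpow (abs_nonneg _) (abs_nonneg _), Real.abs_exp, ← Real.exp_mul,
      ← mul_assoc, ← Real.exp_add]
    have : -(p * t i) + t i * p = 0 := by ring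
    rw [this, Real.exp_zero, one_mul]
  constructor
  · rintro ⟨z, hz, rfl⟩
    simp only [key]
    exact hz
  · intro h
    refine ⟨WithLp.toLp 2 fun i => Real.exp (-(t i)) * x i, ?_, ?_⟩
    · have hx : x = diagMap t (WithLp.toLp 2 fun i => Real.exp (-(t i)) * x i) := by
        ext i
        simp only [diagMap]
        rw [← mul_assoc, ← Real.exp_add]
        simp
      rw [hx] at h
      simp only [key] at h
      exact h
    · ext i
      simp only [diagMap]
      rw [← mul_assoc, ← Real.exp_add]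
      simp

theorem lebesgueOn_eq (s : Set (EuclideanSpace ℝ (Fin n))) (T : Set (Fin (Module.finrank ℝ H) → ℝ))
    (h : ∀ x : H, (x : EuclideanSpace ℝ (Fin n)) ∈ s ↔
      ((stdOrthonormalBasis ℝ H).repr x).ofLp ∈ T) :
    lebesgueOn H s = volume T := by
  have m1 : MeasurePreserving (stdOrthonormalBasis ℝ H).repr (lebesgue H) volume :=
    (stdOrthonormalBasis ℝ H).measurePreserving_repr
  have m2 : MeasurePreserving (WithLp.ofLp : EuclideanSpace ℝ (Fin (Module.finrank ℝ H)) → _)
      volume volume := PiLp.volume_preserving_ofLp (Fin (Module.finrank ℝ H))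
  have m3 := m2.comp m1
  have e0 : lebesgueOn H s = lebesgue H (Subtype.val ⁻¹' s) := by
    unfold lebesgueOn
    apply MeasurableEmbedding.map_apply
    exact MeasurableEmbedding.subtype_coe (Submodule.closed_of_finiteDimensional H).measurableSet
  have e1 : (Subtype.val ⁻¹' s : Set H) =
      (WithLp.ofLp ∘ (stdOrthonormalBasis ℝ H).repr) ⁻¹' T := by
    ext x
    exact h x
  rw [e0, e1]
  apply m3.measure_preimage_emb
  apply MeasurableEmbedding.comp
  · exact (MeasurableEquiv.toLp 2 (Fin (Module.finrank ℝ H) → ℝ)).symm.measurableEmbedding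
  · exact (stdOrthonormalBasis ℝ H).repr.toHomeomorph.measurableEmbedding

theorem sectionVol_eq {p : ℝ} (hp : 1 ≤ p) (hk : 0 < Module.finrank ℝ H) (t : Fin n → ℝ) :
    sectionVol p H t = GG (coef H) (p / 2) (fun i => Real.exp (-(p * t i))) /
      Real.Gamma (Module.finrank ℝ H / p + 1) := by
  have hpos : 0 < p := by linarith
  have hc : ∀ i, 0 < (fun i => Real.exp (-(p * t i)) : Fin n → ℝ) i := fun i => Real.exp_pos _
  unfold sectionVol
  rw [lebesgueOn_eq H (diagMap t '' lpBall p n)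
    {y | gg (coef H) p (fun i => Real.exp (-(p * t i))) y ≤ 1}]
  · rw [vol_gg_le hp (coef_span H) hc hk, ENNReal.toReal_ofReal]
    apply div_nonneg
    · exact (GG_pos (intg_of_span hp (coef_span H)) hc).le
    · exact (Real.Gamma_pos_of_pos (by positivity)).le
  · intro x
    rw [mem_diag_iff p]
    simp only [Set.mem_ofPred_eq, gg, coef_dot]
    have hS : 0 ≤ ∑ i, Real.exp (-(p * t i)) * |(x : EuclideanSpace ℝ (Fin n)) i| ^ p :=
      Finset.sum_nonneg fun i _ => mul_nonneg (Real.exp_pos _).le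
        (Real.rpow_nonneg (abs_nonneg _) _)
    constructor
    · intro h
      exact Real.rpow_le_one hS h (by positivity)
    · intro h
      by_contra hcon
      have := Real.one_lt_rpow (not_le.1 hcon) (z := 1 / p) (by positivity)
      linarith

/-- Log-concavity of sections of rescaled `ℓ_p` balls, `1 ≤ p ≤ 2`. -/
theorem sectionVol_logconcave {p : ℝ} (hp : 1 ≤ p) (hp2 : p ≤ 2)
    (hk : 0 < Module.finrank ℝ H) :
    (∀ t, 0 < sectionVol p H t) ∧ ∀ s t : Fin n → ℝ, ∀ l : ℝ, 0 ≤ l → l ≤ 1 →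
      sectionVol p H s ^ l * sectionVol p H t ^ (1 - l) ≤ sectionVol p H (l • s + (1 - l) • t) := by
  have hpos : 0 < p := by linarith
  have hint := intg_of_span hp (coef_span H)
  have hG : ∀ t : Fin n → ℝ, 0 < GG (coef H) (p / 2) (fun i => Real.exp (-(p * t i))) := fun t =>
    GG_pos hint fun i => Real.exp_pos _
  have hΓ : 0 < Real.Gamma (Module.finrank ℝ H / p + 1) := Real.Gamma_pos_of_pos (by positivity)
  have hp0 : ∀ t, 0 < sectionVol p H t := fun t => by
    rw [sectionVol_eq H hp hk]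
    exact div_pos (hG t) hΓ
  refine ⟨hp0, ?_⟩
  intro s t l hl0 hl1
  have hconc := logGG_concave (a := coef H) (α := p / 2) (by linarith) (by linarith) hint
  have h := hconc.2 (mem_univ (fun i => -(p * s i))) (mem_univ (fun i => -(p * t i))) hl0
    (sub_nonneg.2 hl1) (by ring)
  simp only [smul_eq_mul] at h
  have e : (fun i => Real.exp ((l • (fun i => -(p * s i)) + (1 - l) • (fun i => -(p * t i)) :
      Fin n → ℝ) i)) = fun i => Real.exp (-(p * (l • s + (1 - l) • t) i)) := by
    ext i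
    simp only [Pi.add_apply, Pi.smul_apply, smul_eq_mul]
    congr 1
    ring
  rw [e] at h
  rw [← Real.log_le_log_iff (mul_pos (Real.rpow_pos_of_pos (hp0 _) _)
    (Real.rpow_pos_of_pos (hp0 _) _)) (hp0 _), Real.log_mul (Real.rpow_pos_of_pos (hp0 _) _).ne'
    (Real.rpow_pos_of_pos (hp0 _) _).ne', Real.log_rpow (hp0 _), Real.log_rpow (hp0 _),
    sectionVol_eq H hp hk, sectionVol_eq H hp hk, sectionVol_eq H hp hk,
    Real.log_div (hG _).ne' hΓ.ne', Real.log_div (hG _).ne' hΓ.ne', Real.log_div (hG _).ne' hΓ.ne']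
  linarith

end sub

end Pool.Agent.Lib.MP_fa837f_gt
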