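import Pool.Agent.Lib.MP_fa837f_gt.Corr

open Matrix MeasureTheory Filter Topology Polynomial

namespace Pool.Agent.Lib.MP_fa837f_gt

theorem choose_succ_mul (α : ℝ) (m : ℕ) :
    ((m : ℝ) + 1) * Ring.choose α (m + 1) = (α - m) * Ring.choose α m := by
  have h1 := Ring.descPochhammer_eq_factorial_smul_choose α (m + 1)
  have h2 := Ring.descPochhammer_eq_factorial_smul_choose α m
  have h3 : (descPochhammer ℤ (m + 1)).smeval α = (descPochhammer ℤ m).smeval α * (α - m) := by
    rw [descPochhammer_succ_right, smeval_mul]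
    congr 1
    simp [smeval_sub, smeval_X, smeval_natCast]
  rw [h1, h2, Nat.factorial_succ] at h3
  simp only [nsmul_eq_mul, Nat.cast_mul, Nat.cast_add, Nat.cast_one] at h3
  have h4 : (m.factorial : ℝ) ≠ 0 := by positivity
  have h5 : (m.factorial : ℝ) * (((m : ℝ) + 1) * Ring.choose α (m + 1)) =
      (m.factorial : ℝ) * ((α - m) * Ring.choose α m) := by linarith
  exact mul_left_cancel₀ h4 h5

/-- Taylor coefficients of `1 - (1 - x) ^ α`. -/
noncomputable def coA (α : ℝ) (m : ℕ) : ℝ := if m = 0 then 0 else -((-1) ^ m * Ring.choose α m)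

theorem coA_nonneg {α : ℝ} (h0 : 0 ≤ α) (h1 : α ≤ 1) (m : ℕ) : 0 ≤ coA α m := by
  unfold coA
  rcases m with _ | m
  · simp
  · simp only [Nat.succ_ne_zero, if_false]
    induction m with
    | zero => simp [h0]
    | succ m ih =>
      have h2 := choose_succ_mul α (m + 1)
      push_cast at h2
      have h3 : Ring.choose α (m + 1 + 1) = (α - (m + 1)) * Ring.choose α (m + 1) / (m + 1 + 1) := by
        rw [eq_div_iff (by positivity)]
        linarith
      rw [h3, pow_succ]
      have h4 : -((-1 : ℝ) ^ (m + 1) * -1 * ((α - (m + 1)) * Ring.choose α (m + 1) / (m + 1 + 1))) =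
          (-((-1) ^ (m + 1) * Ring.choose α (m + 1))) * (((m : ℝ) + 1 - α) / (m + 1 + 1)) := by
        ring
      rw [h4]
      apply mul_nonneg ih
      have : (0 : ℝ) ≤ m := by positivity
      apply div_nonneg <;> linarith

theorem hasSum_coA {α x : ℝ} (hx0 : 0 ≤ x) (hx1 : x < 1) :
    HasSum (fun m => coA α m * x ^ m) (1 - (1 - x) ^ α) := by
  have h := Real.one_add_rpow_hasFPowerSeriesOnBall_zero (a := α)
  have hmem : (-x) ∈ Metric.eball (0 : ℝ) 1 := by
    rw [Metric.mem_eball, edist_zero_right]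
    rw [← ofReal_norm, Real.norm_eq_abs, abs_neg, abs_of_nonneg hx0]
    exact ENNReal.ofReal_lt_one.2 hx1
  have h2 := h.hasSum hmem
  simp only [binomialSeries_apply, zero_add] at h2
  have h3 : HasSum (fun m => Ring.choose α m * (-x) ^ m) ((1 - x) ^ α) := by
    have h4 : (1 : ℝ) + -x = 1 - x := by ring
    rw [h4] at h2
    have h6 : (fun m => Ring.choose α m * (-x) ^ m) =
        fun n => Ring.choose α n • (List.ofFn fun _ : Fin n => -x).prod := by
      funext m
      simp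
    rw [h6]
    exact h2
  have h5 := (hasSum_ite_eq (0 : ℕ) (1 : ℝ)).sub h3
  have h7 : (fun m => coA α m * x ^ m) =
      fun m => (if m = 0 then (1 : ℝ) else 0) - Ring.choose α m * (-x) ^ m := by
    funext m
    rcases m with _ | m
    · simp [coA]
    · simp only [coA, Nat.succ_ne_zero, if_false]
      rw [neg_pow x]
      ring
  rw [h7]
  exact h5

/-- polynomials with nonnegative coefficients -/
def NN (p : Polynomial ℝ) : Prop := ∀ j, 0 ≤ p.coeff j

theorem NN.add {p q : Polynomial ℝ} (hp : NN p) (hq : NN q) : NN (p + q) := fun j => by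
  rw [coeff_add]; exact add_nonneg (hp j) (hq j)

theorem NN.mul {p q : Polynomial ℝ} (hp : NN p) (hq : NN q) : NN (p * q) := fun j => by
  rw [coeff_mul]; exact Finset.sum_nonneg fun i _ => mul_nonneg (hp _) (hq _)

theorem NN.C {c : ℝ} (hc : 0 ≤ c) : NN (Polynomial.C c) := fun j => by
  rw [coeff_C]; split_ifs <;> simp [hc]

theorem NN.X_pow (m : ℕ) : NN (X ^ m) := fun j => by
  rw [coeff_X_pow]; split_ifs <;> simp

theorem NN.pow {p : Polynomial ℝ} (hp : NN p) (m : ℕ) : NN (p ^ m) := by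
  induction m with
  | zero => rw [pow_zero, ← Polynomial.C_1]; exact NN.C zero_le_one
  | succ m ih => rw [pow_succ]; exact ih.mul hp

theorem NN.sum {κ : Type*} {s : Finset κ} {p : κ → Polynomial ℝ} (hp : ∀ i ∈ s, NN (p i)) :
    NN (∑ i ∈ s, p i) := fun j => by
  rw [finsetSum_coeff]; exact Finset.sum_nonneg fun i hi => hp i hi j

/-- truncated series of `1 - (1 - r x) ^ α` -/
noncomputable def psiP (α r : ℝ) (M : ℕ) : Polynomial ℝ :=
  ∑ m ∈ Finset.range M, C (coA α m * r ^ m) * X ^ m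

noncomputable def levP (α r : ℝ) (M J : ℕ) (lam : ℝ) : Polynomial ℝ :=
  C (Real.exp (-lam)) * ∑ j ∈ Finset.range (J + 1), C ((j.factorial : ℝ)⁻¹) * (C lam * psiP α r M) ^ j

theorem psiP_NN {α r : ℝ} (h0 : 0 ≤ α) (h1 : α ≤ 1) (hr : 0 ≤ r) (M : ℕ) : NN (psiP α r M) :=
  NN.sum fun m _ => (NN.C (mul_nonneg (coA_nonneg h0 h1 m) (pow_nonneg hr m))).mul (NN.X_pow m)

theorem psiP_eval (α r : ℝ) (M : ℕ) (x : ℝ) :
    (psiP α r M).eval x = ∑ m ∈ Finset.range M, coA α m * (r * x) ^ m := by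
  simp only [psiP, eval_finsetSum, eval_mul, eval_C, eval_pow, eval_X, mul_pow]
  apply Finset.sum_congr rfl
  intro m _
  ring

theorem levP_eval (α r : ℝ) (M J : ℕ) (lam x : ℝ) :
    (levP α r M J lam).eval x = Real.exp (-lam) *
      ∑ j ∈ Finset.range (J + 1), (j.factorial : ℝ)⁻¹ * (lam * (psiP α r M).eval x) ^ j := by
  simp [levP, eval_finsetSum]

theorem levP_NN {α r lam : ℝ} (h0 : 0 ≤ α) (h1 : α ≤ 1) (hr : 0 ≤ r) (hl : 0 ≤ lam) (M J : ℕ) :
    NN (levP α r M J lam) := by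
  apply (NN.C (Real.exp_pos _).le).mul
  apply NN.sum
  intro j _
  apply (NN.C (by positivity)).mul
  exact ((NN.C hl).mul (psiP_NN h0 h1 hr M)).pow j

theorem psi_bounds {α r x : ℝ} (h0 : 0 ≤ α) (h1 : α ≤ 1) (hr : 0 ≤ r) (hr1 : r < 1) (hx : 0 ≤ x)
    (hx1 : x ≤ 1) (M : ℕ) : 0 ≤ (psiP α r M).eval x ∧ (psiP α r M).eval x ≤ 1 := by
  rw [psiP_eval]
  have hrx : 0 ≤ r * x := mul_nonneg hr hx
  have hrx1 : r * x < 1 := by nlinarith
  have hnn : ∀ m, 0 ≤ coA α m * (r * x) ^ m := fun m =>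
    mul_nonneg (coA_nonneg h0 h1 m) (pow_nonneg hrx m)
  constructor
  · exact Finset.sum_nonneg fun m _ => hnn m
  · have h := sum_le_hasSum (Finset.range M) (fun m _ => hnn m) (hasSum_coA (α := α) hrx hrx1)
    have h2 : 0 ≤ (1 - r * x) ^ α := Real.rpow_nonneg (by linarith) _
    linarith

theorem levP_Good {α r lam : ℝ} (h0 : 0 ≤ α) (h1 : α ≤ 1) (hr : 0 ≤ r) (hr1 : r < 1)
    (hl : 0 ≤ lam) (M J : ℕ) : Good (levP α r M J lam) := by
  refine ⟨levP_NN h0 h1 hr hl M J, ?_⟩
  intro h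
  have h2 : (levP α r M J lam).eval 1 = 0 := by rw [h]; simp
  rw [levP_eval] at h2
  have h3 : 0 < ∑ j ∈ Finset.range (J + 1), (j.factorial : ℝ)⁻¹ * (lam * (psiP α r M).eval 1) ^ j := by
    apply Finset.sum_pos'
    · intro j _
      have := (psi_bounds h0 h1 hr hr1 zero_le_one le_rfl M).1
      positivity
    · exact ⟨0, by simp, by simp⟩
  have h4 := Real.exp_pos (-lam)
  exact (mul_pos h4 h3).ne' h2

theorem levP_bounds {α r lam x : ℝ} (h0 : 0 ≤ α) (h1 : α ≤ 1) (hr : 0 ≤ r) (hr1 : r < 1)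
    (hl : 0 ≤ lam) (hx : 0 ≤ x) (hx1 : x ≤ 1) (M J : ℕ) :
    |(levP α r M J lam).eval x| ≤ 1 := by
  rw [levP_eval]
  obtain ⟨hp0, hp1⟩ := psi_bounds h0 h1 hr hr1 hx hx1 M
  set w := lam * (psiP α r M).eval x with hw
  have hw0 : 0 ≤ w := mul_nonneg hl hp0
  have hwl : w ≤ lam := by
    rw [hw]; nlinarith
  have hsum0 : 0 ≤ ∑ j ∈ Finset.range (J + 1), (j.factorial : ℝ)⁻¹ * w ^ j :=
    Finset.sum_nonneg fun j _ => by positivity
  have hsum1 : ∑ j ∈ Finset.range (J + 1), (j.factorial : ℝ)⁻¹ * w ^ j ≤ Real.exp w := by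
    have := Real.sum_le_exp_of_nonneg hw0 (J + 1)
    refine le_trans (le_of_eq ?_) this
    apply Finset.sum_congr rfl
    intro j _
    rw [div_eq_mul_inv, mul_comm]
  rw [abs_of_nonneg (mul_nonneg (Real.exp_pos _).le hsum0)]
  calc Real.exp (-lam) * ∑ j ∈ Finset.range (J + 1), (j.factorial : ℝ)⁻¹ * w ^ j
      ≤ Real.exp (-lam) * Real.exp w := by gcongr
    _ = Real.exp (w - lam) := by rw [← Real.exp_add]; ring_nf
    _ ≤ 1 := Real.exp_le_one_iff.2 (by linarith)

theorem tendsto_levP_J (α r : ℝ) (M : ℕ) (lam x : ℝ) :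
    Tendsto (fun J => (levP α r M J lam).eval x) atTop
      (𝓝 (Real.exp (-lam) * Real.exp (lam * (psiP α r M).eval x))) := by
  simp_rw [levP_eval]
  apply Tendsto.const_mul
  have h := (NormedSpace.expSeries_div_hasSum_exp (𝔸 := ℝ) (lam * (psiP α r M).eval x)).tendsto_sum_nat
  rw [← Real.exp_eq_exp_ℝ] at h
  have h2 := h.comp (tendsto_add_atTop_nat 1)
  refine h2.congr fun J => ?_
  simp only [Function.comp_apply]
  apply Finset.sum_congr rfl
  intro j _
  rw [div_eq_mul_inv, mul_comm]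

theorem tendsto_lev_M {α r x : ℝ} (hr : 0 ≤ r) (hr1 : r < 1) (hx : 0 ≤ x) (hx1 : x ≤ 1) (lam : ℝ) :
    Tendsto (fun M => Real.exp (-lam) * Real.exp (lam * (psiP α r M).eval x)) atTop
      (𝓝 (Real.exp (-(lam * (1 - r * x) ^ α)))) := by
  have hrx : 0 ≤ r * x := mul_nonneg hr hx
  have hrx1 : r * x < 1 := by nlinarith
  have h := (hasSum_coA (α := α) hrx hrx1).tendsto_sum_nat
  have h2 : Tendsto (fun M => (psiP α r M).eval x) atTop (𝓝 (1 - (1 - r * x) ^ α)) :=
    h.congr fun M => (psiP_eval α r M x).symm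
  have h3 := (Real.continuous_exp.tendsto _).comp (h2.const_mul lam)
  have h4 := h3.const_mul (Real.exp (-lam))
  have h5 : Real.exp (-lam) * Real.exp (lam * (1 - (1 - r * x) ^ α)) =
      Real.exp (-(lam * (1 - r * x) ^ α)) := by
    rw [← Real.exp_add]; ring_nf
  rw [h5] at h4
  exact h4

/-- The scale limit. -/
theorem tendsto_scale {z : ℝ} (hz : 0 ≤ z) :
    Tendsto (fun N : ℕ => ((N : ℝ) + 1) * (1 - Real.exp (-(1 / ((N : ℝ) + 1) ^ 2)) *
      Real.exp (-(1 / ((N : ℝ) + 1) * z)))) atTop (𝓝 z) := by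
  have ht : Tendsto (fun N : ℕ => 1 / ((N : ℝ) + 1)) atTop (𝓝 0) := tendsto_one_div_add_atTop_nhds_zero_nat
  -- upper bound z + 1/(N+1); lower bound z/(1 + z'/(N+1))
  have hup : Tendsto (fun N : ℕ => z + 1 / ((N : ℝ) + 1)) atTop (𝓝 z) := by
    simpa using ht.const_add z
  have hlow : Tendsto (fun N : ℕ => z / (1 + (z + 1) * (1 / ((N : ℝ) + 1)))) atTop (𝓝 z) := by
    have h1 : Tendsto (fun N : ℕ => 1 + (z + 1) * (1 / ((N : ℝ) + 1))) atTop (𝓝 1) := by
      simpa using (ht.const_mul (z + 1)).const_add 1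
    have h2 := (tendsto_const_nhds (x := z) (f := atTop (α := ℕ))).div h1 one_ne_zero
    rw [div_one] at h2
    exact h2
  apply tendsto_of_tendsto_of_tendsto_of_le_of_le hlow hup
  · intro N
    have hN : 0 < (N : ℝ) + 1 := by positivity
    have hN1 : 1 ≤ (N : ℝ) + 1 := by
      have : (0 : ℝ) ≤ N := by positivity
      linarith
    set n := (N : ℝ) + 1 with hn
    set h := 1 / n ^ 2 + 1 / n * z with hh
    have hh0 : 0 ≤ h := by positivity
    have hexp : Real.exp (-(1 / n ^ 2)) * Real.exp (-(1 / n * z)) = Real.exp (-h) := by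
      rw [← Real.exp_add, hh]; ring_nf
    show z / (1 + (z + 1) * (1 / n)) ≤
      n * (1 - Real.exp (-(1 / n ^ 2)) * Real.exp (-(1 / n * z)))
    rw [hexp]
    have h1 : Real.exp (-h) ≤ 1 / (1 + h) := by
      rw [Real.exp_neg, inv_eq_one_div]
      apply one_div_le_one_div_of_le (by positivity)
      have := Real.add_one_le_exp h
      linarith
    have h2 : h / (1 + h) ≤ 1 - Real.exp (-h) := by
      have : 1 - 1 / (1 + h) = h / (1 + h) := by field_simp; ring
      linarith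
    have h3 : h ≤ (z + 1) * (1 / n) := by
      rw [hh]
      have : 1 / n ^ 2 ≤ 1 / n := by
        apply one_div_le_one_div_of_le hN
        nlinarith
      linarith
    calc z / (1 + (z + 1) * (1 / n)) ≤ z / (1 + h) := by
          apply div_le_div_of_nonneg_left hz (by positivity)
          linarith
      _ ≤ (n * h) / (1 + h) := by
          apply div_le_div_of_nonneg_right _ (by positivity)
          have : n * h = 1 / n + z := by rw [hh]; field_simp
          rw [this]
          have : 0 < 1 / n := by positivity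
          linarith
      _ = n * (h / (1 + h)) := by ring
      _ ≤ n * (1 - Real.exp (-h)) := by gcongr
  · intro N
    have hN : 0 < (N : ℝ) + 1 := by positivity
    set n := (N : ℝ) + 1 with hn
    set h := 1 / n ^ 2 + 1 / n * z with hh
    have hexp : Real.exp (-(1 / n ^ 2)) * Real.exp (-(1 / n * z)) = Real.exp (-h) := by
      rw [← Real.exp_add, hh]; ring_nf
    show n * (1 - Real.exp (-(1 / n ^ 2)) * Real.exp (-(1 / n * z))) ≤ z + 1 / n
    rw [hexp]
    have h1 := Real.add_one_le_exp (-h)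
    have h2 : n * (1 - Real.exp (-h)) ≤ n * h := by
      apply mul_le_mul_of_nonneg_left _ hN.le
      linarith
    refine h2.trans (le_of_eq ?_)
    rw [hh]; field_simp; ring

end Pool.Agent.Lib.MP_fa837f_gt
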