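import Mathlib

open Filter Topology Set

namespace Pool.Agent.Lib.MP_fa837f_gt

/-- A continuous midpoint concave function on `[0,1]` vanishing at the endpoints is nonnegative. -/
theorem nonneg_of_midpoint {φ : ℝ → ℝ} (hc : ContinuousOn φ (Icc 0 1)) (h0 : φ 0 = 0)
    (h1 : φ 1 = 0) (hmid : ∀ x δ, 0 ≤ δ → 0 ≤ x - δ → x + δ ≤ 1 →
      φ (x + δ) + φ (x - δ) ≤ 2 * φ x) :
    ∀ x ∈ Icc (0 : ℝ) 1, 0 ≤ φ x := by
  obtain ⟨z, hz, hzmin⟩ := isCompact_Icc.exists_isMinOn (nonempty_Icc.2 zero_le_one) hc
  by_contra hcon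
  push Not at hcon
  obtain ⟨x, hx, hxneg⟩ := hcon
  have hm : φ z < 0 := lt_of_le_of_lt (hzmin hx) hxneg
  set Z : Set ℝ := {t | t ∈ Icc (0 : ℝ) 1 ∧ φ t = φ z} with hZ
  have hZeq : Z = Icc (0 : ℝ) 1 ∩ φ ⁻¹' {φ z} := by ext t; simp [hZ]
  have hZc : IsCompact Z := by
    have hcl : IsClosed Z := by
      rw [hZeq]
      exact hc.preimage_isClosed_of_isClosed isClosed_Icc isClosed_singleton
    exact isCompact_Icc.of_isClosed_subset hcl fun t ht => ht.1
  have hZne : Z.Nonempty := ⟨z, hz, rfl⟩
  set t := sInf Z with ht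
  have htZ : t ∈ Z := hZc.sInf_mem hZne
  have ht0 : 0 < t := by
    rcases (htZ.1.1).lt_or_eq with h | h
    · exact h
    · exfalso
      have := htZ.2
      rw [← h, h0] at this
      linarith
  have ht1 : t < 1 := by
    rcases (htZ.1.2).lt_or_eq with h | h
    · exact h
    · exfalso
      have := htZ.2
      rw [h, h1] at this
      linarith
  set δ := min t (1 - t) with hδ
  have hδ0 : 0 < δ := lt_min ht0 (by linarith)
  have hδ1 : δ ≤ t := min_le_left _ _
  have hδ2 : δ ≤ 1 - t := min_le_right _ _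
  have hA := hmid t δ hδ0.le (by linarith) (by linarith)
  have hB : φ z ≤ φ (t + δ) := hzmin ⟨by linarith, by linarith⟩
  have hC : φ z < φ (t - δ) := by
    have h2 : t - δ ∈ Icc (0 : ℝ) 1 := ⟨by linarith, by linarith⟩
    apply lt_of_le_of_ne (hzmin h2)
    intro h3
    have h4 : t - δ ∈ Z := ⟨h2, h3.symm⟩
    have h5 : t ≤ t - δ := csInf_le hZc.bddBelow h4
    linarith
  have hD := htZ.2
  linarith

/-- A continuous midpoint concave function on a topological vector space is concave. -/
theorem concaveOn_of_midpoint {E : Type*} [AddCommGroup E] [Module ℝ E] [TopologicalSpace E]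
    [IsTopologicalAddGroup E] [ContinuousSMul ℝ E] {g : E → ℝ} (hc : Continuous g)
    (hmid : ∀ x h, g (x + h) + g (x - h) ≤ 2 * g x) : ConcaveOn ℝ univ g := by
  refine ⟨convex_univ, ?_⟩
  intro x _ y _ a b ha hb hab
  set φ : ℝ → ℝ := fun t => g ((1 - t) • x + t • y) - ((1 - t) * g x + t * g y) with hφ
  have hφc : Continuous φ := by
    apply Continuous.sub
    · apply hc.comp
      fun_prop
    · fun_prop
  have key := nonneg_of_midpoint (φ := φ) hφc.continuousOn (by simp [hφ]) (by simp [hφ]) (by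
    intro t δ _ _ _
    have e1 : (1 - (t + δ)) • x + (t + δ) • y = ((1 - t) • x + t • y) + δ • (y - x) := by
      module
    have e2 : (1 - (t - δ)) • x + (t - δ) • y = ((1 - t) • x + t • y) - δ • (y - x) := by
      module
    simp only [hφ, e1, e2]
    have := hmid ((1 - t) • x + t • y) (δ • (y - x))
    linarith)
  have hb1 : b ∈ Icc (0 : ℝ) 1 := ⟨hb, by linarith⟩
  have h := key b hb1
  simp only [hφ] at h
  have ha' : a = 1 - b := by linarith
  rw [ha']
  simp only [smul_eq_mul]
  linarith

variable {ι : Type*} [Fintype ι]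

omit [Fintype ι] in
/-- One step of the tent map argument. -/
theorem tent_step {g : (ι → ℝ) → ℝ} (hs : ∀ x y, g x + g y ≤ g (x ⊔ y) + g (x ⊓ y)) {r : ℝ}
    (ht : ∀ x c, g (x + fun _ => c) = g x + r * c) (x h : ι → ℝ) (M : ℝ) :
    g (x + h) + g (x + (fun _ => M) - h) - r * M ≤
      g (x + fun i => min (h i) (M - h i)) +
        g (x + (fun _ => M / 2) - fun i => min (h i) (M - h i)) - r * (M / 2) := by
  have h1 := hs (x + h) (x + (fun _ => M) - h)
  have e1 : (x + h) ⊓ (x + (fun _ => M) - h) = x + fun i => min (h i) (M - h i) := by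
    ext i
    simp only [Pi.inf_apply, Pi.add_apply, Pi.sub_apply]
    have : x i + M - h i = x i + (M - h i) := by ring
    rw [this, min_add_add_left]
  have e2 : (x + h) ⊔ (x + (fun _ => M) - h) =
      (x + (fun _ => M / 2) - fun i => min (h i) (M - h i)) + fun _ => M / 2 := by
    ext i
    simp only [Pi.sup_apply, Pi.add_apply, Pi.sub_apply]
    rcases le_total (h i) (M - h i) with h2 | h2
    · rw [min_eq_left h2, max_eq_right (by linarith)]; ring
    · rw [min_eq_right h2, max_eq_left (by linarith)]; ring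
  rw [e1, e2, ht] at h1
  have e3 : r * M = r * (M / 2) + r * (M / 2) := by ring
  linarith

omit [Fintype ι] in
theorem tent_iter {g : (ι → ℝ) → ℝ} (hs : ∀ x y, g x + g y ≤ g (x ⊔ y) + g (x ⊓ y)) {r : ℝ}
    (ht : ∀ x c, g (x + fun _ => c) = g x + r * c) (x h : ι → ℝ) (M : ℝ)
    (h0 : ∀ i, 0 ≤ h i) (h1 : ∀ i, h i ≤ M) (n : ℕ) :
    ∃ h' : ι → ℝ, (∀ i, 0 ≤ h' i) ∧ (∀ i, h' i ≤ M / 2 ^ n) ∧
      g (x + h) + g (x + (fun _ => M) - h) - r * M ≤
        g (x + h') + g (x + (fun _ => M / 2 ^ n) - h') - r * (M / 2 ^ n) := by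
  induction n with
  | zero => exact ⟨h, h0, by simpa using h1, by simp⟩
  | succ n ih =>
    obtain ⟨h', h0', h1', hle⟩ := ih
    refine ⟨fun i => min (h' i) (M / 2 ^ n - h' i), ?_, ?_, ?_⟩
    · intro i
      exact le_min (h0' i) (by have := h1' i; linarith)
    · intro i
      have e : M / 2 ^ (n + 1) = (M / 2 ^ n) / 2 := by rw [pow_succ]; field_simp
      rw [e]
      show min (h' i) (M / 2 ^ n - h' i) ≤ M / 2 ^ n / 2
      rcases le_total (h' i) (M / 2 ^ n - h' i) with h2 | h2
      · rw [min_eq_left h2]; linarith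
      · rw [min_eq_right h2]; linarith
    · have h3 := tent_step hs ht x h' (M / 2 ^ n)
      have e : M / 2 ^ (n + 1) = (M / 2 ^ n) / 2 := by rw [pow_succ]; field_simp
      rw [e]
      exact hle.trans h3

/-- A continuous supermodular function which is affine in the direction `(1, …, 1)` is concave. -/
theorem concaveOn_of_supermodular {g : (ι → ℝ) → ℝ} (hc : Continuous g)
    (hs : ∀ x y, g x + g y ≤ g (x ⊔ y) + g (x ⊓ y)) {r : ℝ}
    (ht : ∀ x c, g (x + fun _ => c) = g x + r * c) : ConcaveOn ℝ univ g := by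
  apply concaveOn_of_midpoint hc
  have key : ∀ x h : ι → ℝ, ∀ M : ℝ, (∀ i, 0 ≤ h i) → (∀ i, h i ≤ M) →
      g (x + h) + g (x + (fun _ => M) - h) - r * M ≤ 2 * g x := by
    intro x h M h0 h1
    choose h' h0' h1' hle using tent_iter hs ht x h M h0 h1
    have hM : Tendsto (fun n : ℕ => M / 2 ^ n) atTop (𝓝 0) := by
      have := (tendsto_pow_atTop_nhds_zero_of_lt_one (r := (1 / 2 : ℝ)) (by norm_num)
        (by norm_num)).const_mul M
      simp only [mul_zero] at this
      refine this.congr fun n => ?_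
      rw [one_div, inv_pow, div_eq_mul_inv]
    have hh' : Tendsto (fun n => h' n) atTop (𝓝 0) := by
      rw [tendsto_pi_nhds]
      intro i
      exact squeeze_zero (fun n => h0' n i) (fun n => h1' n i) hM
    have hMc : Tendsto (fun n : ℕ => (fun _ : ι => M / 2 ^ n)) atTop (𝓝 0) := by
      rw [tendsto_pi_nhds]
      intro i
      exact hM
    have t1 : Tendsto (fun n => g (x + h' n)) atTop (𝓝 (g x)) := by
      have : Tendsto (fun n => x + h' n) atTop (𝓝 (x + 0)) := hh'.const_add x
      rw [add_zero] at this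
      exact (hc.tendsto x).comp this
    have t2 : Tendsto (fun n => g (x + (fun _ => M / 2 ^ n) - h' n)) atTop (𝓝 (g x)) := by
      have : Tendsto (fun n => x + (fun _ => M / 2 ^ n) - h' n) atTop (𝓝 (x + 0 - 0)) :=
        (hMc.const_add x).sub hh'
      rw [add_zero, sub_zero] at this
      exact (hc.tendsto x).comp this
    have t3 : Tendsto (fun n : ℕ => r * (M / 2 ^ n)) atTop (𝓝 0) := by
      have := hM.const_mul r
      rwa [mul_zero] at this
    have t4 := (t1.add t2).sub t3
    have e : g x + g x - 0 = 2 * g x := by ring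
    rw [e] at t4
    exact ge_of_tendsto' t4 hle
  intro x H
  obtain ⟨B, hB⟩ : ∃ B : ℝ, ∀ i, |H i| ≤ B := by
    refine ⟨∑ i, |H i|, fun i => ?_⟩
    exact Finset.single_le_sum (f := fun i => |H i|) (fun j _ => abs_nonneg _) (Finset.mem_univ i)
  have h := key (x + fun _ => -B) (H + fun _ => B) (2 * B)
    (fun i => by have := (abs_le.1 (hB i)).1; simp only [Pi.add_apply]; linarith)
    (fun i => by have := (abs_le.1 (hB i)).2; simp only [Pi.add_apply]; linarith)
  have e1 : (x + fun _ => -B) + (H + fun _ => B) = x + H := by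
    ext i; simp only [Pi.add_apply]; ring
  have e2 : (x + fun _ => -B) + (fun _ => 2 * B) - (H + fun _ => B) = x - H := by
    ext i; simp only [Pi.add_apply, Pi.sub_apply]; ring
  rw [e1, e2, ht] at h
  linarith

/-- Pairwise increments imply supermodularity. -/
theorem supermodular_of_pairwise [DecidableEq ι] {g : (ι → ℝ) → ℝ}
    (hpw : ∀ (s : ι → ℝ) (i j : ι), i ≠ j → ∀ u v : ℝ, 0 ≤ u → 0 ≤ v →
      g (s + Pi.single i u) + g (s + Pi.single j v) ≤
        g (s + Pi.single i u + Pi.single j v) + g s) (x y : ι → ℝ) :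
    g x + g y ≤ g (x ⊔ y) + g (x ⊓ y) := by
  have step1 : ∀ (i : ι) (u : ℝ), 0 ≤ u → ∀ (w : ι → ℝ), (∀ j, 0 ≤ w j) → ∀ T : Finset ι, i ∉ T →
      ∀ s : ι → ℝ, g (s + Pi.single i u) + g (s + ∑ j ∈ T, Pi.single j (w j)) ≤
        g (s + Pi.single i u + ∑ j ∈ T, Pi.single j (w j)) + g s := by
    intro i u hu w hw T
    induction T using Finset.induction_on with
    | empty => intro _ s; simp
    | insert j T hj ih =>
      intro hiT s
      have hij : i ≠ j := fun h => hiT (h ▸ Finset.mem_insert_self i T)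
      have hiT' : i ∉ T := fun h => hiT (Finset.mem_insert_of_mem h)
      have h1 := ih hiT' s
      have h2 := hpw (s + ∑ j ∈ T, Pi.single j (w j)) i j hij u (w j) hu (hw j)
      rw [Finset.sum_insert hj]
      have e1 : s + (Pi.single j (w j) + ∑ j ∈ T, Pi.single j (w j)) =
          s + ∑ j ∈ T, Pi.single j (w j) + Pi.single j (w j) := by abel
      have e2 : s + Pi.single i u + (Pi.single j (w j) + ∑ j ∈ T, Pi.single j (w j)) =
          s + ∑ j ∈ T, Pi.single j (w j) + Pi.single i u + Pi.single j (w j) := by abel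
      have e3 : s + Pi.single i u + ∑ j ∈ T, Pi.single j (w j) =
          s + ∑ j ∈ T, Pi.single j (w j) + Pi.single i u := by abel
      rw [e1, e2]
      rw [e3] at h1
      linarith
  have step2 : ∀ (u w : ι → ℝ), (∀ j, 0 ≤ u j) → (∀ j, 0 ≤ w j) → ∀ T : Finset ι,
      ∀ A : Finset ι, (∀ i ∈ A, i ∉ T) → ∀ s : ι → ℝ,
      g (s + ∑ i ∈ A, Pi.single i (u i)) + g (s + ∑ j ∈ T, Pi.single j (w j)) ≤
        g (s + ∑ i ∈ A, Pi.single i (u i) + ∑ j ∈ T, Pi.single j (w j)) + g s := by
    intro u w hu hw T A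
    induction A using Finset.induction_on with
    | empty => intro _ s; simp; linarith
    | insert i A hi ih =>
      intro hA s
      have h1 := ih (fun i hi => hA i (Finset.mem_insert_of_mem hi)) s
      have h2 := step1 i (u i) (hu i) w hw T (hA i (Finset.mem_insert_self i A))
        (s + ∑ i ∈ A, Pi.single i (u i))
      rw [Finset.sum_insert hi]
      have e1 : s + (Pi.single i (u i) + ∑ i ∈ A, Pi.single i (u i)) =
          s + ∑ i ∈ A, Pi.single i (u i) + Pi.single i (u i) := by abel
      rw [e1]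
      linarith
  set s := x ⊓ y with hs
  set A : Finset ι := Finset.univ.filter fun i => y i < x i with hA
  set T : Finset ι := Finset.univ.filter fun i => ¬ y i < x i with hT
  have h := step2 (x - s) (y - s) (fun j => by simp [hs]) (fun j => by simp [hs]) T A
    (fun i hi => by
      simp only [hA, hT, Finset.mem_filter, Finset.mem_univ, true_and] at hi ⊢
      exact not_not.2 hi) s
  have e1 : ∑ i ∈ A, Pi.single i ((x - s) i) = x - s := by
    ext i
    rw [Finset.sum_apply]
    simp only [Pi.single_apply]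
    rw [Finset.sum_ite_eq]
    split_ifs with hi
    · rfl
    · have : x i ≤ y i := by
        simp only [hA, Finset.mem_filter, Finset.mem_univ, true_and, not_lt] at hi
        exact hi
      simp [hs, this]
  have e2 : ∑ i ∈ T, Pi.single i ((y - s) i) = y - s := by
    ext i
    rw [Finset.sum_apply]
    simp only [Pi.single_apply]
    rw [Finset.sum_ite_eq]
    split_ifs with hi
    · rfl
    · have : y i < x i := by
        simp only [hT, Finset.mem_filter, Finset.mem_univ, true_and, not_not] at hi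
        exact hi
      simp [hs, this.le]
  rw [e1, e2] at h
  have e3 : s + (x - s) = x := by abel
  have e4 : s + (y - s) = y := by abel
  have e5 : s + (x - s) + (y - s) = x ⊔ y := by
    ext i
    simp only [hs, Pi.add_apply, Pi.sub_apply, Pi.sup_apply, Pi.inf_apply]
    rcases le_total (x i) (y i) with h1 | h1
    · rw [min_eq_left h1, max_eq_right h1]; ring
    · rw [min_eq_right h1, max_eq_left h1]; ring
  rw [e5, e3, e4] at h
  exact h

end Pool.Agent.Lib.MP_fa837f_gt
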