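import Pool.Agent.Lib.MP_fa837f_gt.FourFun

open Matrix MeasureTheory Filter Topology

namespace Pool.Agent.Lib.MP_fa837f_gt

variable {k : ℕ} {ι : Type*} [Fintype ι] [DecidableEq ι]

/-- Expansion of a polynomial factor. -/
theorem J_mul_pf {S : Matrix (Fin k) (Fin k) ℝ} (hS : S.PosDef) (q : Polynomial ℝ)
    {δ : ℝ} (hδ : 0 ≤ δ) (l : Fin k → ℝ) {φ : (Fin k → ℝ) → ℝ} (hφ : Measurable φ) {C : ℝ}
    (hC : ∀ y, |φ y| ≤ C) :
    J S (fun y => φ y * pf q δ l y) = ∑ j ∈ Finset.range (q.natDegree + 1),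
      q.coeff j * J (S + ((j : ℝ) * δ) • vecMulVec l l) φ := by
  have hint : ∀ j : ℕ, Integrable (fun y : Fin k → ℝ => q.coeff j *
      (Real.exp (-(quad (S + ((j : ℝ) * δ) • vecMulVec l l) y)) * φ y)) := by
    intro j
    apply Integrable.const_mul
    exact integrable_J (posDef_add_rankOne hS (by positivity) l) hφ hC
  unfold J
  simp_rw [← integral_const_mul]
  rw [← integral_finsetSum _ (fun j _ => hint j)]
  congr 1
  ext y
  rw [pf, Polynomial.eval_eq_sum_range, Finset.mul_sum, Finset.mul_sum]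
  apply Finset.sum_congr rfl
  intro j _
  rw [exp_quad_add_rankOne, ← Real.exp_nat_mul]
  have : (j : ℝ) * -(δ * (l ⬝ᵥ y) ^ 2) = -((j : ℝ) * δ * (l ⬝ᵥ y) ^ 2) := by ring
  rw [this]
  ring

omit [Fintype ι] in
/-- Correlation inequality with polynomial test functions. -/
theorem J_ineq_pf {p : ι → Polynomial ℝ} (hp : ∀ i, Good (p i)) (a : ι → Fin k → ℝ) {δ : ℝ}
    (hδ : 0 ≤ δ) (s : Finset ι) {S : Matrix (Fin k) (Fin k) ℝ} (hS : S.PosDef)
    {q r : Polynomial ℝ} (hq : Good q) (hr : Good r) (l m : Fin k → ℝ) :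
    J S (fun y => PP p a δ s y * pf q δ l y) * J S (fun y => PP p a δ s y * pf r δ m y) ≤
      J S (fun y => PP p a δ s y * pf q δ l y * pf r δ m y) * J S (PP p a δ s) := by
  have hPm : Measurable (PP p a δ s) := (continuous_PP p a δ s).measurable
  have hPb : ∀ y, |PP p a δ s y| ≤ ∏ i ∈ s, (p i).eval 1 := fun y => by
    rw [abs_of_pos (PP_pos hp a δ s y)]
    exact PP_le hp a hδ s y
  have hPq : Measurable (fun y => PP p a δ s y * pf q δ l y) :=
    hPm.mul (continuous_pf q δ l).measurable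
  have hPqb : ∀ y, |PP p a δ s y * pf q δ l y| ≤ (∏ i ∈ s, (p i).eval 1) * q.eval 1 := fun y => by
    rw [abs_mul]
    apply mul_le_mul (hPb y) _ (abs_nonneg _) _
    · rw [abs_of_pos (pf_pos hq δ l y)]
      exact pf_le hq hδ l y
    · exact Finset.prod_nonneg fun i _ => ((hp i).eval_pos one_pos).le
  rw [J_mul_pf hS q hδ l hPm hPb, J_mul_pf hS r hδ m hPm hPb, J_mul_pf hS r hδ m hPq hPqb]
  have e : ∀ j : ℕ, J (S + ((j : ℝ) * δ) • vecMulVec m m) (fun y => PP p a δ s y * pf q δ l y) =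
      ∑ i ∈ Finset.range (q.natDegree + 1), q.coeff i *
        J (S + ((j : ℝ) * δ) • vecMulVec m m + ((i : ℝ) * δ) • vecMulVec l l) (PP p a δ s) := by
    intro j
    exact J_mul_pf (posDef_add_rankOne hS (by positivity) m) q hδ l hPm hPb
  simp_rw [e]
  rw [Finset.sum_mul_sum, Finset.sum_comm, Finset.sum_mul]
  apply Finset.sum_le_sum
  intro j _
  rw [Finset.mul_sum, Finset.sum_mul]
  apply Finset.sum_le_sum
  intro i _
  have h := J_ineq hp a hδ s S hS ((j : ℝ) * δ) ((i : ℝ) * δ) (by positivity) (by positivity) m l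
  have hc : 0 ≤ r.coeff j * q.coeff i := mul_nonneg (hr.1 j) (hq.1 i)
  calc q.coeff i * J (S + ((i : ℝ) * δ) • vecMulVec l l) (PP p a δ s) *
      (r.coeff j * J (S + ((j : ℝ) * δ) • vecMulVec m m) (PP p a δ s))
      = (r.coeff j * q.coeff i) * (J (S + ((j : ℝ) * δ) • vecMulVec m m) (PP p a δ s) *
        J (S + ((i : ℝ) * δ) • vecMulVec l l) (PP p a δ s)) := by ring
    _ ≤ (r.coeff j * q.coeff i) * (J (S + ((j : ℝ) * δ) • vecMulVec m m +
        ((i : ℝ) * δ) • vecMulVec l l) (PP p a δ s) * J S (PP p a δ s)) :=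
        mul_le_mul_of_nonneg_left h hc
    _ = _ := by ring

/-- The product of the factors `f i (a i ⬝ y)`. -/
noncomputable def prodF (f : ι → ℝ → ℝ) (a : ι → Fin k → ℝ) (y : Fin k → ℝ) : ℝ :=
  ∏ i, f i (a i ⬝ᵥ y)

/-- Correlation inequality for a family of functions. -/
def Corr (S : Matrix (Fin k) (Fin k) ℝ) (a : ι → Fin k → ℝ) (l m : Fin k → ℝ)
    (f : ι → ℝ → ℝ) (g h : ℝ → ℝ) : Prop :=
  J S (fun y => prodF f a y * g (l ⬝ᵥ y)) * J S (fun y => prodF f a y * h (m ⬝ᵥ y)) ≤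
    J S (fun y => prodF f a y * g (l ⬝ᵥ y) * h (m ⬝ᵥ y)) * J S (prodF f a)

theorem corr_poly {S : Matrix (Fin k) (Fin k) ℝ} (hS : S.PosDef) (a : ι → Fin k → ℝ)
    (l m : Fin k → ℝ) {p : ι → Polynomial ℝ} (hp : ∀ i, Good (p i)) {q r : Polynomial ℝ}
    (hq : Good q) (hr : Good r) {δ : ℝ} (hδ : 0 ≤ δ) :
    Corr S a l m (fun i u => (p i).eval (Real.exp (-(δ * u ^ 2))))
      (fun u => q.eval (Real.exp (-(δ * u ^ 2)))) (fun u => r.eval (Real.exp (-(δ * u ^ 2)))) := by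
  have h := J_ineq_pf hp a hδ Finset.univ hS hq hr l m
  exact h

omit [DecidableEq ι] in
theorem tendsto_J {S : Matrix (Fin k) (Fin k) ℝ} (hS : S.PosDef) {φ : ℕ → (Fin k → ℝ) → ℝ}
    {ψ : (Fin k → ℝ) → ℝ} (hφ : ∀ N, Measurable (φ N)) (hb : ∀ N y, |φ N y| ≤ 1)
    (hlim : ∀ y, Tendsto (fun N => φ N y) atTop (𝓝 (ψ y))) :
    Tendsto (fun N => J S (φ N)) atTop (𝓝 (J S ψ)) := by
  unfold J
  apply tendsto_integral_of_dominated_convergence (fun y => Real.exp (-(quad S y)))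
  · intro N
    exact ((Real.continuous_exp.comp (continuous_quad S).neg).measurable.mul
      (hφ N)).aestronglyMeasurable
  · exact integrable_gauss hS
  · intro N
    filter_upwards with y
    rw [norm_mul, Real.norm_eq_abs, Real.norm_eq_abs, Real.abs_exp]
    have := hb N y
    have h2 := Real.exp_pos (-(quad S y))
    nlinarith
  · filter_upwards with y
    exact (hlim y).const_mul _

omit [DecidableEq ι] in
theorem corr_of_tendsto {S : Matrix (Fin k) (Fin k) ℝ} (hS : S.PosDef) (a : ι → Fin k → ℝ)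
    (l m : Fin k → ℝ) {F : ℕ → ι → ℝ → ℝ} {G H : ℕ → ℝ → ℝ} {f : ι → ℝ → ℝ} {g h : ℝ → ℝ}
    (hF : ∀ N i, Measurable (F N i)) (hG : ∀ N, Measurable (G N)) (hH : ∀ N, Measurable (H N))
    (bF : ∀ N i u, |F N i u| ≤ 1) (bG : ∀ N u, |G N u| ≤ 1) (bH : ∀ N u, |H N u| ≤ 1)
    (lF : ∀ i u, Tendsto (fun N => F N i u) atTop (𝓝 (f i u)))
    (lG : ∀ u, Tendsto (fun N => G N u) atTop (𝓝 (g u)))
    (lH : ∀ u, Tendsto (fun N => H N u) atTop (𝓝 (h u)))
    (hcorr : ∀ N, Corr S a l m (F N) (G N) (H N)) : Corr S a l m f g h := by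
  have mdot : ∀ v : Fin k → ℝ, Measurable fun y : Fin k → ℝ => v ⬝ᵥ y := fun v =>
    (continuous_dot v).measurable
  have mP : ∀ N, Measurable (prodF (F N) a) := by
    intro N
    unfold prodF
    exact Finset.measurable_fun_prod _ fun i _ => (hF N i).comp (mdot (a i))
  have bP : ∀ N y, |prodF (F N) a y| ≤ 1 := by
    intro N y
    unfold prodF
    rw [Finset.abs_prod]
    exact Finset.prod_le_one (fun i _ => abs_nonneg _) fun i _ => bF N i _
  have lP : ∀ y, Tendsto (fun N => prodF (F N) a y) atTop (𝓝 (prodF f a y)) := by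
    intro y
    unfold prodF
    exact tendsto_finsetProd _ fun i _ => lF i _
  have t1 : Tendsto (fun N => J S (fun y => prodF (F N) a y * G N (l ⬝ᵥ y))) atTop
      (𝓝 (J S (fun y => prodF f a y * g (l ⬝ᵥ y)))) := by
    apply tendsto_J hS
    · exact fun N => (mP N).mul ((hG N).comp (mdot l))
    · intro N y
      rw [abs_mul]
      exact mul_le_one₀ (bP N y) (abs_nonneg _) (bG N _)
    · exact fun y => (lP y).mul (lG _)
  have t2 : Tendsto (fun N => J S (fun y => prodF (F N) a y * H N (m ⬝ᵥ y))) atTop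
      (𝓝 (J S (fun y => prodF f a y * h (m ⬝ᵥ y)))) := by
    apply tendsto_J hS
    · exact fun N => (mP N).mul ((hH N).comp (mdot m))
    · intro N y
      rw [abs_mul]
      exact mul_le_one₀ (bP N y) (abs_nonneg _) (bH N _)
    · exact fun y => (lP y).mul (lH _)
  have t3 : Tendsto (fun N => J S (fun y => prodF (F N) a y * G N (l ⬝ᵥ y) * H N (m ⬝ᵥ y))) atTop
      (𝓝 (J S (fun y => prodF f a y * g (l ⬝ᵥ y) * h (m ⬝ᵥ y)))) := by
    apply tendsto_J hS
    · exact fun N => ((mP N).mul ((hG N).comp (mdot l))).mul ((hH N).comp (mdot m))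
    · intro N y
      rw [abs_mul, abs_mul]
      exact mul_le_one₀ (mul_le_one₀ (bP N y) (abs_nonneg _) (bG N _)) (abs_nonneg _) (bH N _)
    · exact fun y => ((lP y).mul (lG _)).mul (lH _)
  have t4 : Tendsto (fun N => J S (prodF (F N) a)) atTop (𝓝 (J S (prodF f a))) :=
    tendsto_J hS mP bP lP
  exact le_of_tendsto_of_tendsto' (t1.mul t2) (t3.mul t4) hcorr

end Pool.Agent.Lib.MP_fa837f_gt
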