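import Pool.Agent.Lib.MP_fa837f_gt.GaussDet

open Matrix MeasureTheory

namespace Pool.Agent.Lib.MP_fa837f_gt

/-- elementary inequality behind the four functions theorem on a chain -/
theorem four_aux {a b C E : ℝ} (hC : 0 ≤ C) (hE : 0 ≤ E) (haC : a ≤ C)
    (hbC : b ≤ C) (hab : a * b ≤ C * E) : a + b ≤ C + E := by
  rcases hC.lt_or_eq with h | h
  · by_contra hcon
    push Not at hcon
    nlinarith [mul_nonneg (sub_nonneg.2 haC) (sub_nonneg.2 hbC)]
  · subst h
    linarith

/-- four functions theorem on a finite chain, with weights -/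
theorem four_sum (n : ℕ) (w F₁ F₂ F₃ F₄ : ℕ → ℝ) (hw : ∀ j, 0 ≤ w j)
    (h₁ : ∀ j, 0 ≤ F₁ j) (h₂ : ∀ j, 0 ≤ F₂ j) (h₃ : ∀ j, 0 ≤ F₃ j) (h₄ : ∀ j, 0 ≤ F₄ j)
    (ha : ∀ i j, i ≤ j → F₁ i * F₂ j ≤ F₃ j * F₄ i) (hb : ∀ i j, i ≤ j → F₁ j * F₂ i ≤ F₃ j * F₄ i) :
    (∑ j ∈ Finset.range n, w j * F₁ j) * (∑ j ∈ Finset.range n, w j * F₂ j) ≤
      (∑ j ∈ Finset.range n, w j * F₃ j) * (∑ j ∈ Finset.range n, w j * F₄ j) := by
  have key : ∀ i j, i ≤ j → F₁ i * F₂ j + F₁ j * F₂ i ≤ F₃ j * F₄ i + F₃ i * F₄ j := by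
    intro i j hij
    apply four_aux (mul_nonneg (h₃ j) (h₄ i)) (mul_nonneg (h₃ i) (h₄ j)) (ha i j hij) (hb i j hij)
    have e1 := ha i i le_rfl
    have e2 := ha j j le_rfl
    calc F₁ i * F₂ j * (F₁ j * F₂ i) = (F₁ i * F₂ i) * (F₁ j * F₂ j) := by ring
      _ ≤ (F₃ i * F₄ i) * (F₃ j * F₄ j) := by
          apply mul_le_mul e1 e2 (mul_nonneg (h₁ j) (h₂ j)) (mul_nonneg (h₃ i) (h₄ i))
      _ = F₃ j * F₄ i * (F₃ i * F₄ j) := by ring
  have key' : ∀ i j, F₁ i * F₂ j + F₁ j * F₂ i ≤ F₃ j * F₄ i + F₃ i * F₄ j := by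
    intro i j
    rcases le_total i j with h | h
    · exact key i j h
    · have := key j i h
      linarith
  have expand : ∀ A B : ℕ → ℝ, 2 * ((∑ j ∈ Finset.range n, w j * A j) *
      (∑ j ∈ Finset.range n, w j * B j)) =
      ∑ i ∈ Finset.range n, ∑ j ∈ Finset.range n, w i * w j * (A i * B j + A j * B i) := by
    intro A B
    have e1 : (∑ j ∈ Finset.range n, w j * A j) * (∑ j ∈ Finset.range n, w j * B j) =
        ∑ i ∈ Finset.range n, ∑ j ∈ Finset.range n, w i * w j * (A i * B j) := by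
      rw [Finset.sum_mul_sum]
      apply Finset.sum_congr rfl; intro i _
      apply Finset.sum_congr rfl; intro j _
      ring
    have e2 : (∑ j ∈ Finset.range n, w j * A j) * (∑ j ∈ Finset.range n, w j * B j) =
        ∑ i ∈ Finset.range n, ∑ j ∈ Finset.range n, w i * w j * (A j * B i) := by
      rw [mul_comm, Finset.sum_mul_sum]
      apply Finset.sum_congr rfl; intro i _
      apply Finset.sum_congr rfl; intro j _
      ring
    rw [two_mul]
    nth_rewrite 1 [e1]
    rw [e2, ← Finset.sum_add_distrib]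
    apply Finset.sum_congr rfl; intro i _
    rw [← Finset.sum_add_distrib]
    apply Finset.sum_congr rfl; intro j _
    ring
  have hfin : 2 * ((∑ j ∈ Finset.range n, w j * F₁ j) * (∑ j ∈ Finset.range n, w j * F₂ j)) ≤
      2 * ((∑ j ∈ Finset.range n, w j * F₃ j) * (∑ j ∈ Finset.range n, w j * F₄ j)) := by
    rw [expand F₁ F₂, expand F₃ F₄]
    apply Finset.sum_le_sum; intro i _
    apply Finset.sum_le_sum; intro j _
    apply mul_le_mul_of_nonneg_left _ (mul_nonneg (hw i) (hw j))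
    have := key' i j
    linarith
  linarith

variable {k : ℕ}

theorem continuous_quad (S : Matrix (Fin k) (Fin k) ℝ) : Continuous (quad S) := by
  unfold quad
  have h : Continuous fun y : Fin k → ℝ => S *ᵥ y := Continuous.matrix_mulVec continuous_const continuous_id
  exact Continuous.dotProduct continuous_id h

theorem integrable_gauss {S : Matrix (Fin k) (Fin k) ℝ} (hS : S.PosDef) :
    Integrable (fun y : Fin k → ℝ => Real.exp (-(quad S y))) := by
  by_contra h
  have h1 := gint_pos hS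
  unfold gint at h1
  rw [integral_undef h] at h1
  exact lt_irrefl _ h1

/-- weighted integral against a Gaussian -/
noncomputable def J (S : Matrix (Fin k) (Fin k) ℝ) (φ : (Fin k → ℝ) → ℝ) : ℝ :=
  ∫ y : Fin k → ℝ, Real.exp (-(quad S y)) * φ y

theorem integrable_J {S : Matrix (Fin k) (Fin k) ℝ} (hS : S.PosDef) {φ : (Fin k → ℝ) → ℝ}
    (hφ : Measurable φ) {C : ℝ} (hC : ∀ y, |φ y| ≤ C) :
    Integrable (fun y : Fin k → ℝ => Real.exp (-(quad S y)) * φ y) := by
  apply (integrable_gauss hS).mul_bdd (c := C) hφ.aestronglyMeasurable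
  filter_upwards with y
  simpa using hC y

theorem exp_quad_add_rankOne (S : Matrix (Fin k) (Fin k) ℝ) (x : ℝ) (l y : Fin k → ℝ) :
    Real.exp (-(quad (S + x • vecMulVec l l) y)) =
      Real.exp (-(quad S y)) * Real.exp (-(x * (l ⬝ᵥ y) ^ 2)) := by
  rw [quad_add, quad_rankOne, neg_add, Real.exp_add]

theorem continuous_dot (l : Fin k → ℝ) : Continuous fun y : Fin k → ℝ => l ⬝ᵥ y :=
  Continuous.dotProduct continuous_const continuous_id

/-- one polynomial factor -/
noncomputable def pf (p : Polynomial ℝ) (δ : ℝ) (l y : Fin k → ℝ) : ℝ :=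
  p.eval (Real.exp (-(δ * (l ⬝ᵥ y) ^ 2)))

/-- Polynomials with nonnegative coefficients, not all zero. -/
def Good (p : Polynomial ℝ) : Prop := (∀ j, 0 ≤ p.coeff j) ∧ p ≠ 0

theorem Good.eval_pos {p : Polynomial ℝ} (hp : Good p) {x : ℝ} (hx : 0 < x) : 0 < p.eval x := by
  rw [Polynomial.eval_eq_sum_range]
  apply Finset.sum_pos'
  · intro i _
    exact mul_nonneg (hp.1 i) (pow_nonneg hx.le i)
  · refine ⟨p.natDegree, by simp, ?_⟩
    apply mul_pos _ (pow_pos hx _)
    apply lt_of_le_of_ne (hp.1 _)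
    have : p.leadingCoeff ≠ 0 := Polynomial.leadingCoeff_ne_zero.2 hp.2
    exact this.symm

theorem Good.eval_le {p : Polynomial ℝ} (hp : Good p) {x : ℝ} (hx : 0 ≤ x) (hx1 : x ≤ 1) :
    p.eval x ≤ p.eval 1 := by
  rw [Polynomial.eval_eq_sum_range, Polynomial.eval_eq_sum_range]
  apply Finset.sum_le_sum
  intro i _
  apply mul_le_mul_of_nonneg_left _ (hp.1 i)
  rw [one_pow]
  exact pow_le_one₀ hx hx1

theorem continuous_pf (p : Polynomial ℝ) (δ : ℝ) (l : Fin k → ℝ) : Continuous (pf p δ l) := by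
  unfold pf
  apply p.continuous.comp
  exact Real.continuous_exp.comp ((continuous_const.mul ((continuous_dot l).pow 2)).neg)

theorem pf_pos {p : Polynomial ℝ} (hp : Good p) (δ : ℝ) (l y : Fin k → ℝ) : 0 < pf p δ l y :=
  hp.eval_pos (Real.exp_pos _)

theorem pf_le {p : Polynomial ℝ} (hp : Good p) {δ : ℝ} (hδ : 0 ≤ δ) (l y : Fin k → ℝ) :
    pf p δ l y ≤ p.eval 1 := by
  apply hp.eval_le (Real.exp_pos _).le
  apply Real.exp_le_one_iff.2
  have : 0 ≤ δ * (l ⬝ᵥ y) ^ 2 := by positivity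
  linarith

section prod

variable {ι : Type*} [DecidableEq ι]

/-- product of polynomial factors -/
noncomputable def PP (p : ι → Polynomial ℝ) (a : ι → Fin k → ℝ) (δ : ℝ) (s : Finset ι)
    (y : Fin k → ℝ) : ℝ := ∏ i ∈ s, pf (p i) δ (a i) y

omit [DecidableEq ι] in
theorem continuous_PP (p : ι → Polynomial ℝ) (a : ι → Fin k → ℝ) (δ : ℝ) (s : Finset ι) :
    Continuous (PP p a δ s) := by
  unfold PP
  exact continuous_finsetProd s fun i _ => continuous_pf (p i) δ (a i)

omit [DecidableEq ι] in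
theorem PP_pos {p : ι → Polynomial ℝ} (hp : ∀ i, Good (p i)) (a : ι → Fin k → ℝ) (δ : ℝ)
    (s : Finset ι) (y : Fin k → ℝ) : 0 < PP p a δ s y :=
  Finset.prod_pos fun i _ => pf_pos (hp i) δ (a i) y

omit [DecidableEq ι] in
theorem PP_le {p : ι → Polynomial ℝ} (hp : ∀ i, Good (p i)) (a : ι → Fin k → ℝ) {δ : ℝ}
    (hδ : 0 ≤ δ) (s : Finset ι) (y : Fin k → ℝ) : PP p a δ s y ≤ ∏ i ∈ s, (p i).eval 1 :=
  Finset.prod_le_prod (fun i _ => (pf_pos (hp i) δ (a i) y).le) fun i _ => pf_le (hp i) hδ (a i) y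

omit [DecidableEq ι] in
theorem integrable_JPP {S : Matrix (Fin k) (Fin k) ℝ} (hS : S.PosDef)
    {p : ι → Polynomial ℝ} (hp : ∀ i, Good (p i)) (a : ι → Fin k → ℝ) {δ : ℝ}
    (hδ : 0 ≤ δ) (s : Finset ι) :
    Integrable (fun y : Fin k → ℝ => Real.exp (-(quad S y)) * PP p a δ s y) := by
  apply integrable_J hS (continuous_PP p a δ s).measurable (C := ∏ i ∈ s, (p i).eval 1)
  intro y
  rw [abs_of_pos (PP_pos hp a δ s y)]
  exact PP_le hp a hδ s y

omit [DecidableEq ι] in
theorem J_PP_pos {S : Matrix (Fin k) (Fin k) ℝ} (hS : S.PosDef)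
    {p : ι → Polynomial ℝ} (hp : ∀ i, Good (p i)) (a : ι → Fin k → ℝ) {δ : ℝ}
    (hδ : 0 ≤ δ) (s : Finset ι) : 0 < J S (PP p a δ s) := by
  unfold J
  rw [integral_pos_iff_support_of_nonneg]
  · have : Function.support (fun y : Fin k → ℝ => Real.exp (-(quad S y)) * PP p a δ s y) =
        Set.univ := by
      ext y
      simp only [Function.mem_support, Set.mem_univ, iff_true]
      exact (mul_pos (Real.exp_pos _) (PP_pos hp a δ s y)).ne'
    rw [this]
    exact isOpen_univ.measure_pos volume Set.univ_nonempty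
  · intro y
    exact (mul_pos (Real.exp_pos _) (PP_pos hp a δ s y)).le
  · exact integrable_JPP hS hp a hδ s

theorem J_insert {S : Matrix (Fin k) (Fin k) ℝ} (hS : S.PosDef)
    {p : ι → Polynomial ℝ} (hp : ∀ i, Good (p i)) (a : ι → Fin k → ℝ) {δ : ℝ}
    (hδ : 0 ≤ δ) {s : Finset ι} {i : ι} (hi : i ∉ s) :
    J S (PP p a δ (insert i s)) = ∑ j ∈ Finset.range ((p i).natDegree + 1),
      (p i).coeff j * J (S + ((j : ℝ) * δ) • vecMulVec (a i) (a i)) (PP p a δ s) := by
  have hint : ∀ j : ℕ, Integrable (fun y : Fin k → ℝ => (p i).coeff j *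
      (Real.exp (-(quad (S + ((j : ℝ) * δ) • vecMulVec (a i) (a i)) y)) * PP p a δ s y)) := by
    intro j
    apply Integrable.const_mul
    exact integrable_JPP (posDef_add_rankOne hS (by positivity) (a i)) hp a hδ s
  unfold J
  simp_rw [← integral_const_mul]
  rw [← integral_finsetSum _ (fun j _ => hint j)]
  congr 1
  ext y
  have h1 : PP p a δ (insert i s) y = pf (p i) δ (a i) y * PP p a δ s y := by
    unfold PP
    rw [Finset.prod_insert hi]
  rw [h1, pf, Polynomial.eval_eq_sum_range, Finset.sum_mul, Finset.mul_sum]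
  apply Finset.sum_congr rfl
  intro j _
  rw [exp_quad_add_rankOne, ← Real.exp_nat_mul]
  have : (j : ℝ) * -(δ * (a i ⬝ᵥ y) ^ 2) = -((j : ℝ) * δ * (a i ⬝ᵥ y) ^ 2) := by ring
  rw [this]
  ring

/-- The correlation inequality for products of polynomial factors. -/
theorem J_ineq {p : ι → Polynomial ℝ} (hp : ∀ i, Good (p i)) (a : ι → Fin k → ℝ) {δ : ℝ}
    (hδ : 0 ≤ δ) (s : Finset ι) : ∀ (S : Matrix (Fin k) (Fin k) ℝ), S.PosDef → ∀ (x x' : ℝ),
      0 ≤ x → 0 ≤ x' → ∀ (l m : Fin k → ℝ),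
      J (S + x • vecMulVec l l) (PP p a δ s) * J (S + x' • vecMulVec m m) (PP p a δ s) ≤
        J (S + x • vecMulVec l l + x' • vecMulVec m m) (PP p a δ s) * J S (PP p a δ s) := by
  induction s using Finset.induction_on with
  | empty =>
    intro S hS x x' hx hx' l m
    have h : ∀ T : Matrix (Fin k) (Fin k) ℝ, J T (PP p a δ ∅) = gint T := by
      intro T
      simp [J, gint, PP]
    simp only [h]
    exact gint_ineq hS hx hx' l m
  | insert i s hi ih =>
    intro S hS x x' hx hx' l m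
    have hSl := posDef_add_rankOne hS hx l
    have hSm := posDef_add_rankOne hS hx' m
    have hSlm := posDef_add_rankOne hSl hx' m
    rw [J_insert hSl hp a hδ hi, J_insert hSm hp a hδ hi, J_insert hSlm hp a hδ hi,
      J_insert hS hp a hδ hi]
    set V : Matrix (Fin k) (Fin k) ℝ := vecMulVec (a i) (a i) with hV
    set v : ℕ → ℝ := fun j => (j : ℝ) * δ with hv
    have hv0 : ∀ j, 0 ≤ v j := fun j => by positivity
    have pd : ∀ j, (S + v j • V).PosDef := fun j => posDef_add_rankOne hS (hv0 j) _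
    have pdl : ∀ j, (S + x • vecMulVec l l + v j • V).PosDef := fun j =>
      posDef_add_rankOne hSl (hv0 j) _
    have pdm : ∀ j, (S + x' • vecMulVec m m + v j • V).PosDef := fun j =>
      posDef_add_rankOne hSm (hv0 j) _
    have pdlm : ∀ j, (S + x • vecMulVec l l + x' • vecMulVec m m + v j • V).PosDef := fun j =>
      posDef_add_rankOne hSlm (hv0 j) _
    set Fl : ℕ → ℝ := fun j => J (S + x • vecMulVec l l + v j • V) (PP p a δ s) with hFl
    set Fm : ℕ → ℝ := fun j => J (S + x' • vecMulVec m m + v j • V) (PP p a δ s) with hFm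
    set Flm : ℕ → ℝ := fun j =>
      J (S + x • vecMulVec l l + x' • vecMulVec m m + v j • V) (PP p a δ s) with hFlm
    set F0 : ℕ → ℝ := fun j => J (S + v j • V) (PP p a δ s) with hF0
    have posl : ∀ j, 0 < Fl j := fun j => J_PP_pos (pdl j) hp a hδ s
    have posm : ∀ j, 0 < Fm j := fun j => J_PP_pos (pdm j) hp a hδ s
    have poslm : ∀ j, 0 < Flm j := fun j => J_PP_pos (pdlm j) hp a hδ s
    have pos0 : ∀ j, 0 < F0 j := fun j => J_PP_pos (pd j) hp a hδ s
    -- (l, m) at level j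
    have hlm : ∀ j, Fl j * Fm j ≤ Flm j * F0 j := by
      intro j
      have := ih (S + v j • V) (pd j) x x' hx hx' l m
      have e1 : S + v j • V + x • vecMulVec l l = S + x • vecMulVec l l + v j • V := by abel
      have e2 : S + v j • V + x' • vecMulVec m m = S + x' • vecMulVec m m + v j • V := by abel
      have e3 : S + x • vecMulVec l l + v j • V + x' • vecMulVec m m =
          S + x • vecMulVec l l + x' • vecMulVec m m + v j • V := by abel
      rw [e1, e2, e3] at this
      exact this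
    have hstep : ∀ (z : ℝ), 0 ≤ z → ∀ (q : Fin k → ℝ) (i' j : ℕ), i' ≤ j →
        J (S + z • vecMulVec q q + v i' • V) (PP p a δ s) * F0 j ≤
        J (S + z • vecMulVec q q + v j • V) (PP p a δ s) * F0 i' := by
      intro z hz q i' j hij
      have hd : 0 ≤ v j - v i' := by
        simp only [hv]
        have : (i' : ℝ) ≤ j := by exact_mod_cast hij
        nlinarith
      have := ih (S + v i' • V) (pd i') z (v j - v i') hz hd q (a i)
      have e1 : S + v i' • V + z • vecMulVec q q = S + z • vecMulVec q q + v i' • V := by abel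
      have e2 : S + v i' • V + (v j - v i') • vecMulVec (a i) (a i) = S + v j • V := by
        rw [← hV, sub_smul]; abel
      have e3 : S + z • vecMulVec q q + v i' • V + (v j - v i') • vecMulVec (a i) (a i) =
          S + z • vecMulVec q q + v j • V := by
        rw [← hV, sub_smul]; abel
      rw [e1, e2, e3] at this
      exact this
    apply four_sum
    · exact (hp i).1
    · exact fun j => (posl j).le
    · exact fun j => (posm j).le
    · exact fun j => (poslm j).le
    · exact fun j => (pos0 j).le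
    · intro i' j hij
      -- Fl i' * Fm j ≤ Flm j * F0 i'
      have h1 : Fl i' * F0 j ≤ Fl j * F0 i' := hstep x hx l i' j hij
      have h2 := hlm j
      have h3 : (Fl i' * Fm j) * (F0 j * Fl j) ≤ (Flm j * F0 i') * (F0 j * Fl j) := by
        calc (Fl i' * Fm j) * (F0 j * Fl j) = (Fl i' * F0 j) * (Fl j * Fm j) := by ring
          _ ≤ (Fl j * F0 i') * (Flm j * F0 j) :=
            mul_le_mul h1 h2 (mul_nonneg (posl j).le (posm j).le)
              (mul_nonneg (posl j).le (pos0 i').le)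
          _ = (Flm j * F0 i') * (F0 j * Fl j) := by ring
      exact le_of_mul_le_mul_right h3 (mul_pos (pos0 j) (posl j))
    · intro i' j hij
      -- Fl j * Fm i' ≤ Flm j * F0 i'
      have h1 : Fm i' * F0 j ≤ Fm j * F0 i' := hstep x' hx' m i' j hij
      have h2 := hlm j
      have h3 : (Fl j * Fm i') * (F0 j * Fm j) ≤ (Flm j * F0 i') * (F0 j * Fm j) := by
        calc (Fl j * Fm i') * (F0 j * Fm j) = (Fm i' * F0 j) * (Fl j * Fm j) := by ring
          _ ≤ (Fm j * F0 i') * (Flm j * F0 j) :=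
            mul_le_mul h1 h2 (mul_nonneg (posl j).le (posm j).le)
              (mul_nonneg (posm j).le (pos0 i').le)
          _ = (Flm j * F0 i') * (F0 j * Fm j) := by ring
      exact le_of_mul_le_mul_right h3 (mul_pos (pos0 j) (posm j))

end prod

end Pool.Agent.Lib.MP_fa837f_gt
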