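import Mathlib

open Matrix MeasureTheory
open scoped MatrixOrder

namespace Pool.Agent.Lib.MP_fa837f_gt

variable {k : ℕ}

/-- quadratic form of a matrix -/
noncomputable def quad (S : Matrix (Fin k) (Fin k) ℝ) (y : Fin k → ℝ) : ℝ := y ⬝ᵥ (S *ᵥ y)

theorem quad_add (S T : Matrix (Fin k) (Fin k) ℝ) (y : Fin k → ℝ) :
    quad (S + T) y = quad S y + quad T y := by
  simp [quad, add_mulVec, dotProduct_add]

theorem quad_rankOne (x : ℝ) (l y : Fin k → ℝ) :
    quad (x • vecMulVec l l) y = x * (l ⬝ᵥ y) ^ 2 := by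
  have h : vecMulVec l l *ᵥ y = (l ⬝ᵥ y) • l := by
    ext i
    simp only [mulVec, vecMulVec_apply, dotProduct, Pi.smul_apply, smul_eq_mul, Finset.sum_mul]
    apply Finset.sum_congr rfl
    intro j _
    ring
  simp only [quad, smul_mulVec, h, dotProduct_smul, smul_eq_mul]
  rw [dotProduct_comm y]
  ring

theorem posDef_add_rankOne {S : Matrix (Fin k) (Fin k) ℝ} (hS : S.PosDef) {x : ℝ} (hx : 0 ≤ x)
    (l : Fin k → ℝ) : (S + x • vecMulVec l l).PosDef := by
  apply hS.add_posSemidef
  have h : (vecMulVec l l).PosSemidef := by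
    have := posSemidef_vecMulVec_self_star (R := ℝ) l
    simpa using this
  exact h.smul hx

theorem det_add_rankOne {S : Matrix (Fin k) (Fin k) ℝ} (hS : S.PosDef) (x : ℝ) (l : Fin k → ℝ) :
    (S + x • vecMulVec l l).det = S.det * (1 + x * (l ⬝ᵥ (S⁻¹ *ᵥ l))) := by
  have hu : IsUnit S.det := (ne_of_gt hS.det_pos).isUnit
  have h := det_add_replicateCol_mul_replicateRow (ι := Unit) hu (x • l) l
  have h1 : replicateCol Unit (x • l) * replicateRow Unit l = x • vecMulVec l l := by
    rw [← vecMulVec_eq]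
    ext i j
    simp [vecMulVec_apply, mul_assoc]
  rw [h1] at h
  rw [h]
  congr 1
  rw [det_unique]
  simp only [Matrix.add_apply, Matrix.one_apply_eq]
  congr 1
  rw [Matrix.mul_assoc, ← replicateCol_mulVec, replicateRow_mul_replicateCol_apply]
  rw [mulVec_smul, dotProduct_smul, smul_eq_mul]

theorem inv_quad_le {S : Matrix (Fin k) (Fin k) ℝ} (hS : S.PosDef) {x : ℝ} (hx : 0 ≤ x)
    (l m : Fin k → ℝ) :
    m ⬝ᵥ ((S + x • vecMulVec l l)⁻¹ *ᵥ m) ≤ m ⬝ᵥ (S⁻¹ *ᵥ m) := by
  set S' := S + x • vecMulVec l l with hS'def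
  have hS' : S'.PosDef := posDef_add_rankOne hS hx l
  have hu : IsUnit S.det := (ne_of_gt hS.det_pos).isUnit
  have hu' : IsUnit S'.det := (ne_of_gt hS'.det_pos).isUnit
  set y := S'⁻¹ *ᵥ m with hy
  set z := S⁻¹ *ᵥ m with hz
  have h1 : S' *ᵥ y = m := by rw [hy, mulVec_mulVec, mul_nonsing_inv _ hu', one_mulVec]
  have h2 : S *ᵥ z = m := by rw [hz, mulVec_mulVec, mul_nonsing_inv _ hu, one_mulVec]
  have hsymm : Sᵀ = S := by
    have := hS.isHermitian
    simpa [IsHermitian, conjTranspose_eq_transpose_of_trivial] using this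
  have h3 : quad S' y = m ⬝ᵥ y := by
    rw [quad, h1, dotProduct_comm]
  have h4 : quad S' y = quad S y + x * (l ⬝ᵥ y) ^ 2 := by
    rw [hS'def, quad_add, quad_rankOne]
  have h5 : 0 ≤ quad S (y - z) := by
    have := hS.posSemidef.dotProduct_mulVec_nonneg (y - z)
    simpa [quad] using this
  have h6 : quad S (y - z) = quad S y - 2 * (m ⬝ᵥ y) + m ⬝ᵥ z := by
    have e1 : z ⬝ᵥ (S *ᵥ y) = m ⬝ᵥ y := by
      rw [dotProduct_mulVec, ← mulVec_transpose, hsymm, h2]
    simp only [quad, mulVec_sub, sub_dotProduct, dotProduct_sub, h2, e1]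
    rw [dotProduct_comm y m, dotProduct_comm z m]
    ring
  have h7 : 0 ≤ x * (l ⬝ᵥ y) ^ 2 := by positivity
  linarith

theorem det_ineq {S : Matrix (Fin k) (Fin k) ℝ} (hS : S.PosDef) {x x' : ℝ} (hx : 0 ≤ x)
    (hx' : 0 ≤ x') (l m : Fin k → ℝ) :
    (S + x • vecMulVec l l + x' • vecMulVec m m).det * S.det ≤
      (S + x • vecMulVec l l).det * (S + x' • vecMulVec m m).det := by
  have hS' : (S + x • vecMulVec l l).PosDef := posDef_add_rankOne hS hx l
  rw [det_add_rankOne hS' x' m, det_add_rankOne hS x' m]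
  have h1 := inv_quad_le hS hx l m
  have h2 := hS.det_pos
  have h3 := hS'.det_pos
  have h4 : x' * (m ⬝ᵥ ((S + x • vecMulVec l l)⁻¹ *ᵥ m)) ≤ x' * (m ⬝ᵥ (S⁻¹ *ᵥ m)) := by
    gcongr
  have h5 : 0 < (S + x • vecMulVec l l).det * S.det := mul_pos h3 h2
  nlinarith

/-- Gaussian integral attached to a matrix -/
noncomputable def gint (S : Matrix (Fin k) (Fin k) ℝ) : ℝ :=
  ∫ y : Fin k → ℝ, Real.exp (-(quad S y))

theorem gint_one_pos : 0 < gint (1 : Matrix (Fin k) (Fin k) ℝ) := by
  have h1 : gint (1 : Matrix (Fin k) (Fin k) ℝ) = ∫ y : Fin k → ℝ, ∏ i, Real.exp (-1 * y i ^ 2) := by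
    unfold gint
    congr 1
    ext y
    rw [← Real.exp_sum]
    congr 1
    simp [quad, dotProduct, pow_two]
  rw [h1, integral_fintype_prod_volume_eq_prod (fun _ z => Real.exp (-1 * z ^ 2))]
  apply Finset.prod_pos
  intro i _
  rw [integral_gaussian]
  have := Real.pi_pos
  positivity

theorem gint_sq_mul_det {S : Matrix (Fin k) (Fin k) ℝ} (hS : S.PosDef) :
    gint S ^ 2 * S.det = gint (1 : Matrix (Fin k) (Fin k) ℝ) ^ 2 := by
  set B := CFC.sqrt S with hB
  have hBsa : Bᵀ = B := by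
    have h1 : 0 ≤ B := CFC.sqrt_nonneg S
    have h2 := (nonneg_iff_posSemidef.1 h1).isHermitian
    simpa [IsHermitian, conjTranspose_eq_transpose_of_trivial] using h2
  have hBB : B * B = S := CFC.sqrt_mul_sqrt_self S hS.posSemidef.nonneg
  have hdet : B.det * B.det = S.det := by rw [← det_mul, hBB]
  have hdet0 : B.det ≠ 0 := by
    intro h
    rw [h, mul_zero] at hdet
    exact (ne_of_gt hS.det_pos) hdet.symm
  have hq : ∀ y, quad S y = quad 1 (B *ᵥ y) := by
    intro y
    simp only [quad, one_mulVec]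
    rw [← hBB, ← mulVec_mulVec, dotProduct_mulVec, ← mulVec_transpose, hBsa]
  have hmap := Real.map_matrix_volume_pi_eq_smul_volume_pi hdet0
  have hint : gint S = |B.det|⁻¹ * gint (1 : Matrix (Fin k) (Fin k) ℝ) := by
    unfold gint
    have h1 : (∫ y : Fin k → ℝ, Real.exp (-(quad S y))) =
        ∫ y : Fin k → ℝ, (fun z => Real.exp (-(quad 1 z))) (toLin' B y) := by
      congr 1
      ext y
      simp only [toLin'_apply, hq]
    rw [h1]
    have hcont : Continuous (fun z : Fin k → ℝ => Real.exp (-(quad 1 z))) := by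
      unfold quad
      simp only [one_mulVec]
      fun_prop
    have hmeas : Measurable (toLin' B : (Fin k → ℝ) → (Fin k → ℝ)) :=
      (LinearMap.continuous_on_pi _).measurable
    rw [← integral_map hmeas.aemeasurable hcont.aestronglyMeasurable, hmap, integral_smul_measure]
    rw [ENNReal.toReal_ofReal (abs_nonneg _), abs_inv, smul_eq_mul]
  rw [hint, mul_pow, inv_pow, sq_abs, pow_two, hdet]
  have := hS.det_pos
  field_simp

theorem gint_pos {S : Matrix (Fin k) (Fin k) ℝ} (hS : S.PosDef) : 0 < gint S := by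
  have h1 := gint_sq_mul_det hS
  have h2 : 0 ≤ gint S := integral_nonneg fun y => (Real.exp_pos _).le
  have h3 := gint_one_pos (k := k)
  rcases h2.lt_or_eq with h | h
  · exact h
  · rw [← h] at h1
    have : 0 < gint (1 : Matrix (Fin k) (Fin k) ℝ) ^ 2 := by positivity
    simp at h1
    nlinarith

/-- The basic correlation inequality for Gaussian integrals. -/
theorem gint_ineq {S : Matrix (Fin k) (Fin k) ℝ} (hS : S.PosDef) {x x' : ℝ} (hx : 0 ≤ x)
    (hx' : 0 ≤ x') (l m : Fin k → ℝ) :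
    gint (S + x • vecMulVec l l) * gint (S + x' • vecMulVec m m) ≤
      gint (S + x • vecMulVec l l + x' • vecMulVec m m) * gint S := by
  have hl := posDef_add_rankOne hS hx l
  have hm := posDef_add_rankOne hS hx' m
  have hlm := posDef_add_rankOne hl hx' m
  have e0 := gint_sq_mul_det hS
  have el := gint_sq_mul_det hl
  have em := gint_sq_mul_det hm
  have elm := gint_sq_mul_det hlm
  have hd := det_ineq hS hx hx' l m
  have p0 := gint_pos hS
  have pl := gint_pos hl
  have pm := gint_pos hm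
  have plm := gint_pos hlm
  have d0 := hS.det_pos
  have dl := hl.det_pos
  have dm := hm.det_pos
  have dlm := hlm.det_pos
  set C := gint (1 : Matrix (Fin k) (Fin k) ℝ)
  apply le_of_sq_le_sq _ (by positivity)
  have f0 : gint S ^ 2 = C ^ 2 / S.det := by rw [← e0]; field_simp
  have fl : gint (S + x • vecMulVec l l) ^ 2 = C ^ 2 / (S + x • vecMulVec l l).det := by
    rw [← el]; field_simp
  have fm : gint (S + x' • vecMulVec m m) ^ 2 = C ^ 2 / (S + x' • vecMulVec m m).det := by
    rw [← em]; field_simp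
  have flm : gint (S + x • vecMulVec l l + x' • vecMulVec m m) ^ 2 =
      C ^ 2 / (S + x • vecMulVec l l + x' • vecMulVec m m).det := by
    rw [← elm]; field_simp
  rw [mul_pow, mul_pow, f0, fl, fm, flm, div_mul_div_comm, div_mul_div_comm]
  gcongr

end Pool.Agent.Lib.MP_fa837f_gt
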