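import Pool.Agent.Lib.MP_fa837f_gt.Approx
import Pool.Agent.Lib.MP_fa837f_gt.Concave

open Matrix MeasureTheory Filter Topology

namespace Pool.Agent.Lib.MP_fa837f_gt

variable {k : ℕ} {ι : Type*} [Fintype ι] [DecidableEq ι]

section levels

variable {S : Matrix (Fin k) (Fin k) ℝ} (hS : S.PosDef) (a : ι → Fin k → ℝ) (l m : Fin k → ℝ)

theorem exp_neg_sq_mem {δ : ℝ} (hδ : 0 ≤ δ) (u : ℝ) :
    0 ≤ Real.exp (-(δ * u ^ 2)) ∧ Real.exp (-(δ * u ^ 2)) ≤ 1 := by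
  refine ⟨(Real.exp_pos _).le, Real.exp_le_one_iff.2 ?_⟩
  have : 0 ≤ δ * u ^ 2 := by positivity
  linarith

include hS in
theorem corr_lev0 {α r δ : ℝ} (h0 : 0 ≤ α) (h1 : α ≤ 1) (hr : 0 ≤ r) (hr1 : r < 1) (hδ : 0 ≤ δ)
    {c : ι → ℝ} (hc : ∀ i, 0 ≤ c i) {x x' : ℝ} (hx : 0 ≤ x) (hx' : 0 ≤ x') (M J : ℕ) :
    Corr S a l m (fun i u => (levP α r M J (c i)).eval (Real.exp (-(δ * u ^ 2))))
      (fun u => (levP α r M J x).eval (Real.exp (-(δ * u ^ 2))))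
      (fun u => (levP α r M J x').eval (Real.exp (-(δ * u ^ 2)))) :=
  corr_poly hS a l m (fun i => levP_Good h0 h1 hr hr1 (hc i) M J)
    (levP_Good h0 h1 hr hr1 hx M J) (levP_Good h0 h1 hr hr1 hx' M J) hδ

theorem measurable_polyexp (p : Polynomial ℝ) (δ : ℝ) :
    Measurable fun u : ℝ => p.eval (Real.exp (-(δ * u ^ 2))) := by
  have : Continuous fun u : ℝ => p.eval (Real.exp (-(δ * u ^ 2))) := by
    apply p.continuous.comp
    fun_prop
  exact this.measurable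

include hS in
theorem corr_lev1 {α r δ : ℝ} (h0 : 0 ≤ α) (h1 : α ≤ 1) (hr : 0 ≤ r) (hr1 : r < 1) (hδ : 0 ≤ δ)
    {c : ι → ℝ} (hc : ∀ i, 0 ≤ c i) {x x' : ℝ} (hx : 0 ≤ x) (hx' : 0 ≤ x') (M : ℕ) :
    Corr S a l m
      (fun i u => Real.exp (-(c i)) *
        Real.exp (c i * (psiP α r M).eval (Real.exp (-(δ * u ^ 2)))))
      (fun u => Real.exp (-x) * Real.exp (x * (psiP α r M).eval (Real.exp (-(δ * u ^ 2)))))
      (fun u => Real.exp (-x') * Real.exp (x' * (psiP α r M).eval (Real.exp (-(δ * u ^ 2))))) := by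
  apply corr_of_tendsto hS a l m
    (F := fun J i u => (levP α r M J (c i)).eval (Real.exp (-(δ * u ^ 2))))
    (G := fun J u => (levP α r M J x).eval (Real.exp (-(δ * u ^ 2))))
    (H := fun J u => (levP α r M J x').eval (Real.exp (-(δ * u ^ 2))))
  · exact fun J i => measurable_polyexp _ _
  · exact fun J => measurable_polyexp _ _
  · exact fun J => measurable_polyexp _ _
  · exact fun J i u => levP_bounds h0 h1 hr hr1 (hc i) (exp_neg_sq_mem hδ u).1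
      (exp_neg_sq_mem hδ u).2 M J
  · exact fun J u => levP_bounds h0 h1 hr hr1 hx (exp_neg_sq_mem hδ u).1
      (exp_neg_sq_mem hδ u).2 M J
  · exact fun J u => levP_bounds h0 h1 hr hr1 hx' (exp_neg_sq_mem hδ u).1
      (exp_neg_sq_mem hδ u).2 M J
  · exact fun i u => tendsto_levP_J α r M (c i) _
  · exact fun u => tendsto_levP_J α r M x _
  · exact fun u => tendsto_levP_J α r M x' _
  · exact fun J => corr_lev0 hS a l m h0 h1 hr hr1 hδ hc hx hx' M J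

theorem lev1_meas (α r δ lam : ℝ) (M : ℕ) : Measurable fun u : ℝ => Real.exp (-lam) *
    Real.exp (lam * (psiP α r M).eval (Real.exp (-(δ * u ^ 2)))) := by
  have h : Measurable fun u : ℝ => (psiP α r M).eval (Real.exp (-(δ * u ^ 2))) :=
    measurable_polyexp _ _
  exact (Real.measurable_exp.comp (h.const_mul lam)).const_mul _

theorem lev1_bound {α r δ lam : ℝ} (h0 : 0 ≤ α) (h1 : α ≤ 1) (hr : 0 ≤ r) (hr1 : r < 1)
    (hδ : 0 ≤ δ) (hl : 0 ≤ lam) (M : ℕ) (u : ℝ) : |Real.exp (-lam) *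
    Real.exp (lam * (psiP α r M).eval (Real.exp (-(δ * u ^ 2))))| ≤ 1 := by
  have h := (psi_bounds h0 h1 hr hr1 (exp_neg_sq_mem hδ u).1 (exp_neg_sq_mem hδ u).2 M).2
  rw [← Real.exp_add, Real.abs_exp]
  apply Real.exp_le_one_iff.2
  nlinarith

include hS in
theorem corr_lev2 {α r δ : ℝ} (h0 : 0 ≤ α) (h1 : α ≤ 1) (hr : 0 ≤ r) (hr1 : r < 1) (hδ : 0 ≤ δ)
    {c : ι → ℝ} (hc : ∀ i, 0 ≤ c i) {x x' : ℝ} (hx : 0 ≤ x) (hx' : 0 ≤ x') :
    Corr S a l m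
      (fun i u => Real.exp (-(c i * (1 - r * Real.exp (-(δ * u ^ 2))) ^ α)))
      (fun u => Real.exp (-(x * (1 - r * Real.exp (-(δ * u ^ 2))) ^ α)))
      (fun u => Real.exp (-(x' * (1 - r * Real.exp (-(δ * u ^ 2))) ^ α))) := by
  apply corr_of_tendsto hS a l m
    (F := fun M i u => Real.exp (-(c i)) *
        Real.exp (c i * (psiP α r M).eval (Real.exp (-(δ * u ^ 2)))))
    (G := fun M u => Real.exp (-x) *
        Real.exp (x * (psiP α r M).eval (Real.exp (-(δ * u ^ 2)))))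
    (H := fun M u => Real.exp (-x') *
        Real.exp (x' * (psiP α r M).eval (Real.exp (-(δ * u ^ 2)))))
  · exact fun M i => lev1_meas _ _ _ _ _
  · exact fun M => lev1_meas _ _ _ _ _
  · exact fun M => lev1_meas _ _ _ _ _
  · exact fun M i u => lev1_bound h0 h1 hr hr1 hδ (hc i) M u
  · exact fun M u => lev1_bound h0 h1 hr hr1 hδ hx M u
  · exact fun M u => lev1_bound h0 h1 hr hr1 hδ hx' M u
  · exact fun i u => tendsto_lev_M hr hr1 (exp_neg_sq_mem hδ u).1 (exp_neg_sq_mem hδ u).2 _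
  · exact fun u => tendsto_lev_M hr hr1 (exp_neg_sq_mem hδ u).1 (exp_neg_sq_mem hδ u).2 _
  · exact fun u => tendsto_lev_M hr hr1 (exp_neg_sq_mem hδ u).1 (exp_neg_sq_mem hδ u).2 _
  · exact fun M => corr_lev1 hS a l m h0 h1 hr hr1 hδ hc hx hx' M

theorem lev2_meas (α r δ lam : ℝ) :
    Measurable fun u : ℝ => Real.exp (-(lam * (1 - r * Real.exp (-(δ * u ^ 2))) ^ α)) := by
  fun_prop

theorem lev2_bound {α r δ lam : ℝ} (hr : 0 ≤ r) (hr1 : r < 1)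
    (hδ : 0 ≤ δ) (hl : 0 ≤ lam) (u : ℝ) :
    |Real.exp (-(lam * (1 - r * Real.exp (-(δ * u ^ 2))) ^ α))| ≤ 1 := by
  rw [Real.abs_exp]
  apply Real.exp_le_one_iff.2
  obtain ⟨h1, h2⟩ := exp_neg_sq_mem hδ u
  have h3 : 0 ≤ 1 - r * Real.exp (-(δ * u ^ 2)) := by nlinarith
  have := mul_nonneg hl (Real.rpow_nonneg h3 α)
  linarith

theorem tendsto_lev3 {α : ℝ} (h0 : 0 < α) (lam u : ℝ) :
    Tendsto (fun N : ℕ => Real.exp (-((lam * ((N : ℝ) + 1) ^ α) *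
      (1 - Real.exp (-(1 / ((N : ℝ) + 1) ^ 2)) * Real.exp (-(1 / ((N : ℝ) + 1) * u ^ 2))) ^ α)))
      atTop (𝓝 (Real.exp (-(lam * (u ^ 2) ^ α)))) := by
  have h1 := tendsto_scale (sq_nonneg u)
  have h2 := (Real.continuousAt_rpow_const (u ^ 2) α (Or.inr h0.le)).tendsto.comp h1
  have h3 := (Real.continuous_exp.tendsto _).comp ((h2.const_mul lam).neg)
  refine h3.congr fun N => ?_
  simp only [Function.comp_apply]
  congr 1
  have hN : (0 : ℝ) ≤ (N : ℝ) + 1 := by positivity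
  have h4 : 0 ≤ 1 - Real.exp (-(1 / ((N : ℝ) + 1) ^ 2)) * Real.exp (-(1 / ((N : ℝ) + 1) * u ^ 2)) := by
    rw [← Real.exp_add]
    have : Real.exp (-(1 / ((N : ℝ) + 1) ^ 2) + -(1 / ((N : ℝ) + 1) * u ^ 2)) ≤ 1 := by
      apply Real.exp_le_one_iff.2
      have e1 : 0 ≤ 1 / ((N : ℝ) + 1) ^ 2 := by positivity
      have e2 : 0 ≤ 1 / ((N : ℝ) + 1) * u ^ 2 := by positivity
      linarith
    linarith
  rw [Real.mul_rpow hN h4]
  ring

include hS in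
/-- The correlation inequality for stretched exponentials. -/
theorem corr_rpow {α : ℝ} (h0 : 0 < α) (h1 : α ≤ 1)
    {c : ι → ℝ} (hc : ∀ i, 0 ≤ c i) {x x' : ℝ} (hx : 0 ≤ x) (hx' : 0 ≤ x') :
    Corr S a l m (fun i u => Real.exp (-(c i * (u ^ 2) ^ α)))
      (fun u => Real.exp (-(x * (u ^ 2) ^ α))) (fun u => Real.exp (-(x' * (u ^ 2) ^ α))) := by
  have hr : ∀ N : ℕ, 0 ≤ Real.exp (-(1 / ((N : ℝ) + 1) ^ 2)) := fun N => (Real.exp_pos _).le
  have hr1 : ∀ N : ℕ, Real.exp (-(1 / ((N : ℝ) + 1) ^ 2)) < 1 := fun N => by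
    have h2 : 0 < 1 / ((N : ℝ) + 1) ^ 2 := by positivity
    have h3 : Real.exp (-(1 / ((N : ℝ) + 1) ^ 2)) < Real.exp 0 := Real.exp_lt_exp.2 (by linarith)
    rwa [Real.exp_zero] at h3
  have hd : ∀ N : ℕ, 0 ≤ 1 / ((N : ℝ) + 1) := fun N => by positivity
  have hN : ∀ N : ℕ, 0 ≤ ((N : ℝ) + 1) ^ α := fun N => by positivity
  apply corr_of_tendsto hS a l m
    (F := fun N i u => Real.exp (-((c i * ((N : ℝ) + 1) ^ α) *
      (1 - Real.exp (-(1 / ((N : ℝ) + 1) ^ 2)) * Real.exp (-(1 / ((N : ℝ) + 1) * u ^ 2))) ^ α)))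
    (G := fun N u => Real.exp (-((x * ((N : ℝ) + 1) ^ α) *
      (1 - Real.exp (-(1 / ((N : ℝ) + 1) ^ 2)) * Real.exp (-(1 / ((N : ℝ) + 1) * u ^ 2))) ^ α)))
    (H := fun N u => Real.exp (-((x' * ((N : ℝ) + 1) ^ α) *
      (1 - Real.exp (-(1 / ((N : ℝ) + 1) ^ 2)) * Real.exp (-(1 / ((N : ℝ) + 1) * u ^ 2))) ^ α)))
  · exact fun N i => lev2_meas _ _ _ _
  · exact fun N => lev2_meas _ _ _ _
  · exact fun N => lev2_meas _ _ _ _
  · exact fun N i u => lev2_bound (hr N) (hr1 N) (hd N) (mul_nonneg (hc i) (hN N)) u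
  · exact fun N u => lev2_bound (hr N) (hr1 N) (hd N) (mul_nonneg hx (hN N)) u
  · exact fun N u => lev2_bound (hr N) (hr1 N) (hd N) (mul_nonneg hx' (hN N)) u
  · exact fun i u => tendsto_lev3 h0 _ _
  · exact fun u => tendsto_lev3 h0 _ _
  · exact fun u => tendsto_lev3 h0 _ _
  · exact fun N => corr_lev2 hS a l m h0.le h1 (hr N) (hr1 N) (hd N)
      (fun i => mul_nonneg (hc i) (hN N)) (mul_nonneg hx (hN N)) (mul_nonneg hx' (hN N))

end levels

/-- The weighted integral `∫ exp (- ∑ c i |a i ⬝ y| ^ (2 α)) dy`. -/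
noncomputable def GG (a : ι → Fin k → ℝ) (α : ℝ) (c : ι → ℝ) : ℝ :=
  ∫ y : Fin k → ℝ, Real.exp (-(∑ i, c i * ((a i ⬝ᵥ y) ^ 2) ^ α))

omit [DecidableEq ι] in
theorem tendsto_J_eps {φ : (Fin k → ℝ) → ℝ} (hφ : Integrable φ) (hm : Measurable φ) :
    Tendsto (fun N : ℕ => J ((1 / ((N : ℝ) + 1)) • (1 : Matrix (Fin k) (Fin k) ℝ)) φ) atTop
      (𝓝 (∫ y, φ y)) := by
  unfold J
  apply tendsto_integral_of_dominated_convergence (fun y => |φ y|)
  · intro N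
    exact ((Real.continuous_exp.comp (continuous_quad _).neg).measurable.mul hm).aestronglyMeasurable
  · exact hφ.abs
  · intro N
    filter_upwards with y
    rw [norm_mul, Real.norm_eq_abs, Real.norm_eq_abs, Real.abs_exp]
    have h1 : Real.exp (-(quad ((1 / ((N : ℝ) + 1)) • (1 : Matrix (Fin k) (Fin k) ℝ)) y)) ≤ 1 := by
      apply Real.exp_le_one_iff.2
      have : 0 ≤ quad ((1 / ((N : ℝ) + 1)) • (1 : Matrix (Fin k) (Fin k) ℝ)) y := by
        simp only [quad, smul_mulVec, one_mulVec, dotProduct_smul, smul_eq_mul]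
        have : 0 ≤ y ⬝ᵥ y := by
          simp only [dotProduct]
          exact Finset.sum_nonneg fun i _ => mul_self_nonneg _
        positivity
      linarith
    have := abs_nonneg (φ y)
    nlinarith
  · filter_upwards with y
    have h1 : Tendsto (fun N : ℕ => quad ((1 / ((N : ℝ) + 1)) • (1 : Matrix (Fin k) (Fin k) ℝ)) y)
        atTop (𝓝 0) := by
      simp only [quad, smul_mulVec, one_mulVec, dotProduct_smul, smul_eq_mul]
      have := tendsto_one_div_add_atTop_nhds_zero_nat (𝕜 := ℝ).mul_const (y ⬝ᵥ y)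
      simpa using this
    have h2 := (Real.continuous_exp.tendsto _).comp h1.neg
    simp only [neg_zero, Real.exp_zero] at h2
    have h3 := h2.mul_const (φ y)
    rw [one_mul] at h3
    exact h3

omit [DecidableEq ι] in
theorem prodF_exp (a : ι → Fin k → ℝ) (α : ℝ) (c : ι → ℝ) (y : Fin k → ℝ) :
    prodF (fun i u => Real.exp (-(c i * (u ^ 2) ^ α))) a y =
      Real.exp (-(∑ i, c i * ((a i ⬝ᵥ y) ^ 2) ^ α)) := by
  unfold prodF
  rw [← Real.exp_sum, ← Finset.sum_neg_distrib]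

theorem GG_pairwise {a : ι → Fin k → ℝ} {α : ℝ} (h0 : 0 < α) (h1 : α ≤ 1)
    (hint : ∀ c : ι → ℝ, (∀ i, 0 < c i) →
      Integrable fun y : Fin k → ℝ => Real.exp (-(∑ i, c i * ((a i ⬝ᵥ y) ^ 2) ^ α)))
    {c : ι → ℝ} (hc : ∀ i, 0 < c i) (i j : ι) {x x' : ℝ} (hx : 0 ≤ x) (hx' : 0 ≤ x') :
    GG a α (c + Pi.single i x) * GG a α (c + Pi.single j x') ≤
      GG a α (c + Pi.single i x + Pi.single j x') * GG a α c := by
  have hmeas : ∀ c : ι → ℝ, Measurable fun y : Fin k → ℝ =>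
      Real.exp (-(∑ i, c i * ((a i ⬝ᵥ y) ^ 2) ^ α)) := by
    intro c
    have hd : ∀ i, Measurable fun y : Fin k → ℝ => a i ⬝ᵥ y := fun i => (continuous_dot (a i)).measurable
    fun_prop
  have hpos : ∀ (c : ι → ℝ) (i : ι) (x : ℝ), (∀ i, 0 < c i) → 0 ≤ x →
      ∀ i', 0 < (c + (Pi.single i x : ι → ℝ)) i' := by
    intro c i x hc hx i'
    have h2 : 0 ≤ (Pi.single i x : ι → ℝ) i' := by
      by_cases h : i' = i
      · subst h; simpa using hx
      · simp [h]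
    exact add_pos_of_pos_of_nonneg (hc i') h2
  have hexp : ∀ (c : ι → ℝ) (i : ι) (x : ℝ) (y : Fin k → ℝ),
      Real.exp (-(∑ i', (c + (Pi.single i x : ι → ℝ)) i' * ((a i' ⬝ᵥ y) ^ 2) ^ α)) =
        Real.exp (-(∑ i', c i' * ((a i' ⬝ᵥ y) ^ 2) ^ α)) * Real.exp (-(x * ((a i ⬝ᵥ y) ^ 2) ^ α)) := by
    intro c i x y
    rw [← Real.exp_add]
    congr 1
    simp only [Pi.add_apply, add_mul, Finset.sum_add_distrib]
    have : ∑ i', (Pi.single i x : ι → ℝ) i' * ((a i' ⬝ᵥ y) ^ 2) ^ α = x * ((a i ⬝ᵥ y) ^ 2) ^ α := by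
      rw [Finset.sum_eq_single i]
      · simp
      · intro b _ hb; simp [hb]
      · intro h; exact absurd (Finset.mem_univ i) h
    rw [this]
    ring
  have hci := hpos c i x hc hx
  have hcj := hpos c j x' hc hx'
  have hcij := hpos (c + Pi.single i x) j x' hci hx'
  have hS : ∀ N : ℕ, ((1 / ((N : ℝ) + 1)) • (1 : Matrix (Fin k) (Fin k) ℝ)).PosDef := fun N =>
    PosDef.one.smul (by positivity)
  have hcorr : ∀ N : ℕ, J ((1 / ((N : ℝ) + 1)) • (1 : Matrix (Fin k) (Fin k) ℝ))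
      (fun y => Real.exp (-(∑ i', (c + (Pi.single i x : ι → ℝ)) i' * ((a i' ⬝ᵥ y) ^ 2) ^ α))) *
      J ((1 / ((N : ℝ) + 1)) • (1 : Matrix (Fin k) (Fin k) ℝ))
      (fun y => Real.exp (-(∑ i', (c + (Pi.single j x' : ι → ℝ)) i' * ((a i' ⬝ᵥ y) ^ 2) ^ α))) ≤
      J ((1 / ((N : ℝ) + 1)) • (1 : Matrix (Fin k) (Fin k) ℝ))
      (fun y => Real.exp (-(∑ i', (c + (Pi.single i x : ι → ℝ) + (Pi.single j x' : ι → ℝ)) i' *
        ((a i' ⬝ᵥ y) ^ 2) ^ α))) *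
      J ((1 / ((N : ℝ) + 1)) • (1 : Matrix (Fin k) (Fin k) ℝ))
      (fun y => Real.exp (-(∑ i', c i' * ((a i' ⬝ᵥ y) ^ 2) ^ α))) := by
    intro N
    have h := corr_rpow (hS N) a (a i) (a j) h0 h1 (c := c) (fun i => (hc i).le) hx hx'
    unfold Corr at h
    simp only [prodF_exp] at h
    have e0 : prodF (fun i u => Real.exp (-(c i * (u ^ 2) ^ α))) a =
        fun y => Real.exp (-(∑ i, c i * ((a i ⬝ᵥ y) ^ 2) ^ α)) := by
      funext y; exact prodF_exp a α c y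
    rw [e0] at h
    have e1 : (fun y : Fin k → ℝ => Real.exp (-(∑ i', (c + (Pi.single i x : ι → ℝ)) i' * ((a i' ⬝ᵥ y) ^ 2) ^ α))) =
        fun y => Real.exp (-(∑ i', c i' * ((a i' ⬝ᵥ y) ^ 2) ^ α)) *
          Real.exp (-(x * ((a i ⬝ᵥ y) ^ 2) ^ α)) := by
      funext y; exact hexp c i x y
    have e2 : (fun y : Fin k → ℝ => Real.exp (-(∑ i', (c + (Pi.single j x' : ι → ℝ)) i' * ((a i' ⬝ᵥ y) ^ 2) ^ α))) =
        fun y => Real.exp (-(∑ i', c i' * ((a i' ⬝ᵥ y) ^ 2) ^ α)) *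
          Real.exp (-(x' * ((a j ⬝ᵥ y) ^ 2) ^ α)) := by
      funext y; exact hexp c j x' y
    have e3 : (fun y : Fin k → ℝ => Real.exp (-(∑ i', (c + (Pi.single i x : ι → ℝ) + (Pi.single j x' : ι → ℝ)) i' *
        ((a i' ⬝ᵥ y) ^ 2) ^ α))) =
        fun y => Real.exp (-(∑ i', c i' * ((a i' ⬝ᵥ y) ^ 2) ^ α)) *
          Real.exp (-(x * ((a i ⬝ᵥ y) ^ 2) ^ α)) * Real.exp (-(x' * ((a j ⬝ᵥ y) ^ 2) ^ α)) := by
      funext y; rw [hexp (c + (Pi.single i x : ι → ℝ)) j x' y, hexp c i x y]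
    rw [e1, e2, e3]
    exact h
  have t1 := tendsto_J_eps (hint _ hci) (hmeas _)
  have t2 := tendsto_J_eps (hint _ hcj) (hmeas _)
  have t3 := tendsto_J_eps (hint _ hcij) (hmeas _)
  have t4 := tendsto_J_eps (hint _ hc) (hmeas _)
  exact le_of_tendsto_of_tendsto' (t1.mul t2) (t3.mul t4) hcorr

end Pool.Agent.Lib.MP_fa837f_gt
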