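import Pool.Agent.Lib.MP_fa837f_gt.Level

open Matrix MeasureTheory Filter Topology Set

namespace Pool.Agent.Lib.MP_fa837f_gt

variable {k : ℕ} {ι : Type*} [Fintype ι] [DecidableEq ι]

/-- The integrability hypothesis. -/
def Intg (a : ι → Fin k → ℝ) (α : ℝ) : Prop :=
  ∀ c : ι → ℝ, (∀ i, 0 < c i) →
    Integrable fun y : Fin k → ℝ => Real.exp (-(∑ i, c i * ((a i ⬝ᵥ y) ^ 2) ^ α))

omit [DecidableEq ι] in
theorem GG_pos {a : ι → Fin k → ℝ} {α : ℝ} (hint : Intg a α) {c : ι → ℝ} (hc : ∀ i, 0 < c i) :
    0 < GG a α c :=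
  integral_exp_pos (hint c hc)

omit [DecidableEq ι] in
theorem GG_scale {a : ι → Fin k → ℝ} {α : ℝ} (h0 : 0 < α) (s : ι → ℝ) (r : ℝ) :
    GG a α (fun i => Real.exp (s i + r)) =
      Real.exp (-(k / (2 * α)) * r) * GG a α (fun i => Real.exp (s i)) := by
  unfold GG
  have h := Measure.integral_comp_smul (volume : Measure (Fin k → ℝ))
    (fun y : Fin k → ℝ => Real.exp (-(∑ i, Real.exp (s i) * ((a i ⬝ᵥ y) ^ 2) ^ α)))
    (Real.exp (r / (2 * α)))
  have e : ∀ y : Fin k → ℝ, ∀ i, Real.exp (s i) * ((a i ⬝ᵥ (Real.exp (r / (2 * α)) • y)) ^ 2) ^ α =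
      Real.exp (s i + r) * ((a i ⬝ᵥ y) ^ 2) ^ α := by
    intro y i
    rw [dotProduct_smul, smul_eq_mul, mul_pow, Real.mul_rpow (by positivity) (by positivity)]
    have : (Real.exp (r / (2 * α)) ^ 2) ^ α = Real.exp r := by
      rw [← Real.exp_nat_mul, ← Real.exp_mul]
      congr 1
      push_cast
      field_simp
    rw [this, Real.exp_add]
    ring
  simp only [e] at h
  rw [h]
  rw [smul_eq_mul]
  congr 1
  rw [abs_of_nonneg (by positivity), ← Real.exp_nat_mul, ← Real.exp_neg, Module.finrank_fin_fun]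
  congr 1
  field_simp

omit [DecidableEq ι] in
theorem GG_continuous {a : ι → Fin k → ℝ} {α : ℝ} (hint : Intg a α) :
    Continuous fun s : ι → ℝ => GG a α (fun i => Real.exp (s i)) := by
  rw [continuous_iff_continuousAt]
  intro s0
  unfold GG
  apply continuousAt_of_dominated
    (bound := fun y : Fin k → ℝ => Real.exp (-(∑ i, Real.exp (s0 i - 1) * ((a i ⬝ᵥ y) ^ 2) ^ α)))
  · filter_upwards with s
    exact (hint (fun i => Real.exp (s i)) (fun i => Real.exp_pos _)).aestronglyMeasurable
  · have hU : {s : ι → ℝ | ∀ i, s0 i - 1 < s i} ∈ 𝓝 s0 := by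
      have : {s : ι → ℝ | ∀ i, s0 i - 1 < s i} = Set.pi univ fun i => Ioi (s0 i - 1) := by
        ext s; simp
      rw [this]
      apply set_pi_mem_nhds finite_univ
      intro i _
      exact Ioi_mem_nhds (by linarith)
    filter_upwards [hU] with s hs
    filter_upwards with y
    rw [Real.norm_eq_abs, Real.abs_exp]
    apply Real.exp_le_exp.2
    apply neg_le_neg
    apply Finset.sum_le_sum
    intro i _
    apply mul_le_mul_of_nonneg_right
    · exact Real.exp_le_exp.2 (hs i).le
    · positivity
  · exact hint _ fun i => Real.exp_pos _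
  · filter_upwards with y
    have : Continuous fun s : ι → ℝ =>
        Real.exp (-(∑ i, Real.exp (s i) * ((a i ⬝ᵥ y) ^ 2) ^ α)) := by fun_prop
    exact this.continuousAt

/-- Concavity of `s ↦ log ∫ exp (- ∑ exp (s i) |a i ⬝ y| ^ (2 α)) dy` for `0 < α ≤ 1`. -/
theorem logGG_concave {a : ι → Fin k → ℝ} {α : ℝ} (h0 : 0 < α) (h1 : α ≤ 1) (hint : Intg a α) :
    ConcaveOn ℝ univ fun s : ι → ℝ => Real.log (GG a α (fun i => Real.exp (s i))) := by
  have hpos : ∀ s : ι → ℝ, 0 < GG a α (fun i => Real.exp (s i)) := fun s =>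
    GG_pos hint fun i => Real.exp_pos _
  apply concaveOn_of_supermodular (r := -(k / (2 * α)))
  · exact (GG_continuous hint).log fun s => (hpos s).ne'
  · apply supermodular_of_pairwise
    intro s i j hij u v hu hv
    rw [← Real.log_mul (hpos _).ne' (hpos _).ne', ← Real.log_mul (hpos _).ne' (hpos _).ne']
    apply Real.log_le_log (mul_pos (hpos _) (hpos _))
    have h := GG_pairwise h0 h1 hint (c := fun i => Real.exp (s i)) (fun i => Real.exp_pos _) i j
      (x := Real.exp (s i) * (Real.exp u - 1)) (x' := Real.exp (s j) * (Real.exp v - 1))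
      (mul_nonneg (Real.exp_pos _).le (by linarith [Real.add_one_le_exp u]))
      (mul_nonneg (Real.exp_pos _).le (by linarith [Real.add_one_le_exp v]))
    have e1 : ((fun i => Real.exp (s i)) + Pi.single i (Real.exp (s i) * (Real.exp u - 1)) : ι → ℝ) =
        fun i' => Real.exp ((s + (Pi.single i u : ι → ℝ)) i') := by
      ext i'
      simp only [Pi.add_apply]
      by_cases hi : i' = i
      · subst hi
        simp only [Pi.single_eq_same]
        rw [Real.exp_add]
        ring
      · simp [hi]
    have e2 : ((fun i => Real.exp (s i)) + Pi.single j (Real.exp (s j) * (Real.exp v - 1)) : ι → ℝ) =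
        fun i' => Real.exp ((s + (Pi.single j v : ι → ℝ)) i') := by
      ext i'
      simp only [Pi.add_apply]
      by_cases hi : i' = j
      · subst hi
        simp only [Pi.single_eq_same]
        rw [Real.exp_add]
        ring
      · simp [hi]
    have e3 : ((fun i => Real.exp (s i)) + Pi.single i (Real.exp (s i) * (Real.exp u - 1)) +
        Pi.single j (Real.exp (s j) * (Real.exp v - 1)) : ι → ℝ) =
        fun i' => Real.exp ((s + (Pi.single i u : ι → ℝ) + (Pi.single j v : ι → ℝ)) i') := by
      rw [e1]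
      ext i'
      simp only [Pi.add_apply]
      by_cases hi : i' = j
      · subst hi
        have hne : i' ≠ i := fun h => hij h.symm
        simp only [Pi.single_eq_same, Pi.single_eq_of_ne hne, add_zero]
        rw [Real.exp_add]
        ring
      · simp [hi]
    rw [e3, e1, e2] at h
    exact h
  · intro s c
    have h := GG_scale (a := a) h0 s c
    have e : (fun i => Real.exp ((s + (fun _ => c : ι → ℝ)) i)) = fun i => Real.exp (s i + c) := rfl
    rw [e, h, Real.log_mul (Real.exp_pos _).ne' (hpos _).ne', Real.log_exp]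
    ring

end Pool.Agent.Lib.MP_fa837f_gt
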